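import Pool.Agent.R939.EI.Den2
import Pool.Agent.Helper23K9.Q5.Sie

/-!
Counting over finite prime fields.
-/

set_option autoImplicit false
set_option linter.all false

open Polynomial
open scoped Classical

namespace Pool.Agent.Helper23K9.Q6

open Pool.Agent.R939.EI

/-- Pairs with fibres of at least two elements. -/
theorem two_image {X Y : Type} [DecidableEq X] [DecidableEq Y] (A : Finset X) (f : X → Y)
    (i : X → X) (h1 : ∀ x ∈ A, i x ∈ A) (h2 : ∀ x ∈ A, i x ≠ x) (h3 : ∀ x ∈ A, f (i x) = f x) :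
    2 * (A.image f).card ≤ A.card := by
  refine Finset.mul_card_image_le_card (f := f) A 2 ?_
  intro y hy
  rw [Finset.mem_image] at hy
  obtain ⟨x, hx, rfl⟩ := hy
  have hsub : ({x, i x} : Finset X) ⊆ A.filter fun t => f t = f x := by
    intro t ht
    rw [Finset.mem_insert, Finset.mem_singleton] at ht
    rw [Finset.mem_filter]
    rcases ht with rfl | rfl
    · exact ⟨hx, rfl⟩
    · exact ⟨h1 x hx, h3 x hx⟩
  have := Finset.card_le_card hsub
  rwa [Finset.card_pair (h2 x hx).symm] at this

/-- Constant coefficients of cubic polynomials with a double root. -/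
def Dbl {p : ℕ} (c a1 a2 : ZMod p) : Set (ZMod p) :=
  {a0 | ∃ e f, a0 = -(c * (e ^ 2 * f)) ∧ a1 = c * (e ^ 2 + 2 * e * f) ∧ a2 = -(c * (2 * e + f))}

/-- Constant coefficients of cubic polynomials `(α X + β) ^ 2 + c (X - e) ^ 3`. -/
def Flx {p : ℕ} (c a1 a2 : ZMod p) : Set (ZMod p) :=
  {a0 | ∃ α β e, a0 = β ^ 2 - c * e ^ 3 ∧ a1 = 2 * α * β + 3 * c * e ^ 2 ∧ a2 = α ^ 2 - 3 * c * e}

/-- Pairs `(a0, a1)` such that `X ^ 3 + a2 X ^ 2 + a1 X + a0` has a double root. -/
def Dbl2 {p : ℕ} (a2 : ZMod p) : Set (ZMod p × ZMod p) :=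
  {y | ∃ e f, y.1 = -(e ^ 2 * f) ∧ y.2 = e ^ 2 + 2 * e * f ∧ a2 = -(2 * e + f)}

/-- Pairs such that the third division polynomial has a root. -/
def Rt {p : ℕ} (a2 : ZMod p) : Set (ZMod p × ZMod p) :=
  {y | ∃ e, (y.2 - 3 * e ^ 2) ^ 2 = 4 * (a2 + 3 * e) * (y.1 + e ^ 3)}

section one

variable {p : ℕ} [Fact p.Prime]

theorem card_fin1 (T : Set (ZMod p)) : {y : Fin 1 → ZMod p | y 0 ∈ T}.ncard = T.ncard := by
  have h1 : T = (fun y : Fin 1 → ZMod p => y 0) '' {y : Fin 1 → ZMod p | y 0 ∈ T} := by
    ext x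
    constructor
    · intro hx
      exact ⟨fun _ => x, hx, rfl⟩
    · rintro ⟨y, hy, rfl⟩
      exact hy
  conv_rhs => rw [h1]
  rw [Set.ncard_image_of_injective]
  intro y y' h
  funext i
  have : i = 0 := Subsingleton.elim _ _
  rw [this]
  exact h

theorem card_fin2 (T : Set (ZMod p × ZMod p)) :
    {y : Fin 2 → ZMod p | (y 0, y 1) ∈ T}.ncard = T.ncard := by
  have h1 : T = (fun y : Fin 2 → ZMod p => (y 0, y 1)) '' {y : Fin 2 → ZMod p | (y 0, y 1) ∈ T} := by
    ext x
    constructor
    · intro hx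
      exact ⟨![x.1, x.2], hx, rfl⟩
    · rintro ⟨y, hy, rfl⟩
      exact hy
  conv_rhs => rw [h1]
  rw [Set.ncard_image_of_injective]
  intro y y' h
  have h2 : (y 0, y 1) = (y' 0, y' 1) := h
  funext i
  fin_cases i
  · exact congrArg Prod.fst h2
  · exact congrArg Prod.snd h2

theorem compl1 (T : Set (ZMod p)) : Tᶜ.ncard + T.ncard = p := by
  have h1 := Set.ncard_add_ncard_compl T
  rw [Nat.card_eq_fintype_card, ZMod.card] at h1
  omega

theorem compl2 (T : Set (ZMod p × ZMod p)) : Tᶜ.ncard + T.ncard = p ^ 2 := by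
  have h1 := Set.ncard_add_ncard_compl T
  rw [Nat.card_eq_fintype_card, Fintype.card_prod, ZMod.card] at h1
  rw [pow_two]
  omega

theorem ncard_le {X : Type} [Fintype X] {T : Set X} {S : Finset X} (h : ∀ x ∈ T, x ∈ S) :
    T.ncard ≤ S.card := by
  rw [← Set.ncard_coe_finset S]
  exact Set.ncard_le_ncard (fun x hx => h x hx) (Finset.finite_toSet S)

/-- The squares. -/
theorem card_sq (hp : p ≠ 2) : 2 * (Finset.univ.filter fun x : ZMod p => IsSquare x).card ≤ p + 1 := by
  have hF : ringChar (ZMod p) ≠ 2 := by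
    rw [ZMod.ringChar_zmod_n]
    exact hp
  have h1 := card_chi hF (κ := -1) (Or.inr rfl)
  rw [ZMod.card] at h1
  have h2 := Finset.card_filter_add_card_filter_not (s := (Finset.univ : Finset (ZMod p)))
    (fun x => IsSquare x)
  rw [Finset.card_univ, ZMod.card] at h2
  have h3 : (Finset.univ.filter fun x : ZMod p => quadraticChar (ZMod p) x = -1).card ≤
      (Finset.univ.filter fun x : ZMod p => ¬ IsSquare x).card := by
    apply Finset.card_le_card
    intro x hx
    rw [Finset.mem_filter] at hx ⊢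
    exact ⟨hx.1, Pool.Agent.Helper23K9.Q5.not_sq hx.2⟩
  omega

theorem card_nsq (hp : p ≠ 2) : p ≤ 2 * (Finset.univ.filter fun x : ZMod p => ¬ IsSquare x).card + 1 := by
  have h1 := card_sq (p := p) hp
  have h2 := Finset.card_filter_add_card_filter_not (s := (Finset.univ : Finset (ZMod p)))
    (fun x => IsSquare x)
  rw [Finset.card_univ, ZMod.card] at h2
  omega

/-- Values of a linear polynomial. -/
theorem lin_nsq (hp : p ≠ 2) {u : ZMod p} (hu : u ≠ 0) (v : ZMod p) :
    p ≤ 2 * {x : ZMod p | ¬ IsSquare (v + u * x)}.ncard + 1 := by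
  refine (card_nsq hp).trans (Nat.add_le_add_right (Nat.mul_le_mul_left 2 ?_) 1)
  rw [← Set.ncard_coe_finset]
  have h1 : (fun x => (x - v) / u) '' ((Finset.univ.filter fun x : ZMod p => ¬ IsSquare x :
      Finset (ZMod p)) : Set (ZMod p)) ⊆ {x : ZMod p | ¬ IsSquare (v + u * x)} := by
    rintro _ ⟨x, hx, rfl⟩
    rw [Finset.mem_coe, Finset.mem_filter] at hx
    rw [Set.mem_setOf_eq]
    have e : v + u * ((x - v) / u) = x := by field_simp; ring
    rw [e]
    exact hx.2
  rw [← Set.ncard_image_of_injective _ (f := fun x => (x - v) / u)]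
  · exact Set.ncard_le_ncard h1 (Set.toFinite _)
  · intro x x' h
    have h2 : (x - v) / u = (x' - v) / u := h
    rw [div_left_inj' hu] at h2
    exact sub_left_injective h2

theorem card_dbl {c : ZMod p} (hc : c ≠ 0) (h3 : (3 : ZMod p) ≠ 0) (a1 a2 : ZMod p) :
    (Dbl c a1 a2).ncard ≤ 2 := by
  obtain ⟨Q, hQ⟩ : ∃ Q : (ZMod p)[X], Q = C (3 * c) * X ^ 2 + C (2 * a2) * X + C a1 := ⟨_, rfl⟩
  have hd : Q.natDegree ≤ 2 := by
    rw [hQ]
    compute_degree
  have hQ2 : Q.coeff 2 = 3 * c := by
    rw [hQ]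
    simp only [coeff_add, coeff_C_mul, coeff_X_pow, coeff_X, coeff_C]
    norm_num
  have hQ0 : Q ≠ 0 := by
    rintro h0
    rw [h0, coeff_zero] at hQ2
    exact mul_ne_zero h3 hc hQ2.symm
  refine (ncard_le (S := Q.roots.toFinset.image fun e => -(c * (e ^ 2 * (-a2 / c - 2 * e)))) ?_).trans
    (Finset.card_image_le.trans ((Multiset.toFinset_card_le _).trans ((card_roots' Q).trans hd)))
  rintro a0 ⟨e, f, e0, e1, e2⟩
  have hf : f = -a2 / c - 2 * e := by
    rw [e2]
    field_simp
    ring
  rw [Finset.mem_image]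
  refine ⟨e, ?_, ?_⟩
  · rw [Multiset.mem_toFinset, mem_roots hQ0, IsRoot.def, hQ]
    simp only [eval_add, eval_mul, eval_C, eval_pow, eval_X]
    rw [e1, e2]
    ring
  · rw [e0, ← hf]

theorem card_flx {c : ZMod p} (hc : c ≠ 0) (h2 : (2 : ZMod p) ≠ 0) (h3 : (3 : ZMod p) ≠ 0)
    {ω : ZMod p} (hω : ω ^ 2 + ω + 1 = 0) (a1 a2 : ZMod p) :
    2 * (Flx c a1 a2).ncard ≤ p + 1 := by
  have hp : p ≠ 2 := by
    intro h0
    apply h2
    have : ((2 : ℕ) : ZMod p) = 0 := by rw [ZMod.natCast_eq_zero_iff, h0]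
    exact_mod_cast this
  by_cases hs : 3 * c * a1 = a2 ^ 2
  · refine le_trans (Nat.mul_le_mul_left 2 ?_) (card_sq hp)
    refine (ncard_le (S := (Finset.univ.filter fun x : ZMod p => IsSquare x).image
      fun x => x - c * (-a2 / (3 * c)) ^ 3) ?_).trans Finset.card_image_le
    rintro a0 ⟨α, β, e, e0, e1, e2⟩
    rw [Finset.mem_image]
    refine ⟨a0 + c * (-a2 / (3 * c)) ^ 3, ?_, by ring⟩
    rw [Finset.mem_filter]
    refine ⟨Finset.mem_univ _, ?_⟩
    have he : e = (α ^ 2 - a2) / (3 * c) := by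
      rw [e2]
      field_simp
      ring
    by_cases hα : α = 0
    · refine ⟨β, ?_⟩
      rw [e0, he, hα]
      ring
    · refine ⟨α ^ 3 * (2 * ω + 1) / (18 * c), ?_⟩
      have h18 : (18 : ZMod p) ≠ 0 := by
        have : (18 : ZMod p) = 2 * (3 * 3) := by norm_num
        rw [this]
        exact mul_ne_zero h2 (mul_ne_zero h3 h3)
      have ha1 : a1 = a2 ^ 2 / (3 * c) := by
        rw [← hs]
        field_simp
      have hβ : β = (a1 - 3 * c * e ^ 2) / (2 * α) := by
        rw [e1]
        field_simp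
        ring
      have hβ' : β = (2 * a2 * α - α ^ 3) / (6 * c) := by
        rw [hβ, ha1, he]
        have h6 : (6 : ZMod p) ≠ 0 := by
          have : (6 : ZMod p) = 2 * 3 := by norm_num
          rw [this]
          exact mul_ne_zero h2 h3
        field_simp
        ring
      rw [e0, hβ', he]
      have h6 : (6 : ZMod p) ≠ 0 := by
        have : (6 : ZMod p) = 2 * 3 := by norm_num
        rw [this]
        exact mul_ne_zero h2 h3
      field_simp
      linear_combination (-3888 * α ^ 6) * hω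
  · obtain ⟨G, hG⟩ : ∃ G : ZMod p → ZMod p, G = fun α =>
      ((a1 - 3 * c * ((α ^ 2 - a2) / (3 * c)) ^ 2) / (2 * α)) ^ 2 -
        c * ((α ^ 2 - a2) / (3 * c)) ^ 3 := ⟨_, rfl⟩
    have h5 : 2 * ((Finset.univ.erase (0 : ZMod p)).image G).card ≤
        (Finset.univ.erase (0 : ZMod p)).card := by
      refine two_image _ G (fun α => -α) ?_ ?_ ?_
      · intro α hα
        rw [Finset.mem_erase] at hα ⊢
        exact ⟨neg_ne_zero.2 hα.1, Finset.mem_univ _⟩
      · intro α hα h0
        rw [Finset.mem_erase] at hα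
        apply hα.1
        have : 2 * α = 0 := by linear_combination -h0
        exact (mul_eq_zero.1 this).resolve_left h2
      · intro α _
        rw [hG]
        show ((a1 - 3 * c * (((-α) ^ 2 - a2) / (3 * c)) ^ 2) / (2 * (-α))) ^ 2 -
          c * (((-α) ^ 2 - a2) / (3 * c)) ^ 3 = _
        rw [neg_sq, mul_neg, div_neg, neg_sq]
    rw [Finset.card_erase_of_mem (Finset.mem_univ _), Finset.card_univ, ZMod.card] at h5
    refine le_trans (Nat.mul_le_mul_left 2 (ncard_le (S := (Finset.univ.erase (0 : ZMod p)).image G)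
      ?_)) (h5.trans (by omega))
    rintro a0 ⟨α, β, e, e0, e1, e2⟩
    have he : e = (α ^ 2 - a2) / (3 * c) := by
      rw [e2]
      field_simp
      ring
    have hα : α ≠ 0 := by
      rintro rfl
      apply hs
      rw [e1, he]
      field_simp
      ring
    rw [Finset.mem_image]
    refine ⟨α, Finset.mem_erase.2 ⟨hα, Finset.mem_univ _⟩, ?_⟩
    have hβ : β = (a1 - 3 * c * e ^ 2) / (2 * α) := by
      rw [e1]
      field_simp
      ring
    simp only [hG]
    rw [e0, ← he, ← hβ]

end one

section two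

variable {p : ℕ} [Fact p.Prime]

theorem card_dbl2 (a2 : ZMod p) : (Dbl2 a2).ncard ≤ p := by
  refine (ncard_le (S := Finset.univ.image fun e : ZMod p => (-(e ^ 2 * (-a2 - 2 * e)),
    e ^ 2 + 2 * e * (-a2 - 2 * e))) ?_).trans
    (Finset.card_image_le.trans (by rw [Finset.card_univ, ZMod.card]))
  rintro y ⟨e, f, e0, e1, e2⟩
  have hf : -a2 - 2 * e = f := by
    rw [e2]
    ring
  rw [Finset.mem_image]
  refine ⟨e, Finset.mem_univ _, ?_⟩
  rw [hf]
  exact Prod.ext e0.symm e1.symm

/-- The parametrization. -/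
def gk (κ a2 : ZMod p) (x : ZMod p × ZMod p) : ZMod p × ZMod p :=
  (κ * x.2 ^ 2 - ((κ * x.1 ^ 2 - a2) / 3) ^ 3,
    2 * κ * x.1 * x.2 + 3 * ((κ * x.1 ^ 2 - a2) / 3) ^ 2)

theorem gk_neg (κ a2 : ZMod p) (x : ZMod p × ZMod p) : gk κ a2 (-x.1, -x.2) = gk κ a2 x := by
  unfold gk
  ext <;> simp only <;> ring

theorem gk_card (h2 : (2 : ZMod p) ≠ 0) (κ a2 : ZMod p) :
    2 * (Finset.univ.image (gk κ a2)).card ≤ p ^ 2 + 1 := by
  have h5 : 2 * ((Finset.univ.erase (0 : ZMod p × ZMod p)).image (gk κ a2)).card ≤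
      (Finset.univ.erase (0 : ZMod p × ZMod p)).card := by
    refine two_image _ _ (fun x => (-x.1, -x.2)) ?_ ?_ ?_
    · intro x hx
      rw [Finset.mem_erase] at hx ⊢
      refine ⟨fun h0 => hx.1 ?_, Finset.mem_univ _⟩
      have h1 := congrArg Prod.fst h0
      have h3 := congrArg Prod.snd h0
      exact Prod.ext (neg_eq_zero.1 h1) (neg_eq_zero.1 h3)
    · intro x hx h0
      rw [Finset.mem_erase] at hx
      apply hx.1
      have h1 : -x.1 = x.1 := congrArg Prod.fst h0
      have h3 : -x.2 = x.2 := congrArg Prod.snd h0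
      have h4 : 2 * x.1 = 0 := by linear_combination -h1
      have h6 : 2 * x.2 = 0 := by linear_combination -h3
      exact Prod.ext ((mul_eq_zero.1 h4).resolve_left h2) ((mul_eq_zero.1 h6).resolve_left h2)
    · intro x _
      exact gk_neg κ a2 x
  have h6 : (Finset.univ.image (gk κ a2)).card ≤
      ((Finset.univ.erase (0 : ZMod p × ZMod p)).image (gk κ a2)).card + 1 := by
    have h7 : Finset.univ.image (gk κ a2) ⊆
        insert (gk κ a2 0) ((Finset.univ.erase (0 : ZMod p × ZMod p)).image (gk κ a2)) := by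
      intro y hy
      rw [Finset.mem_image] at hy
      obtain ⟨x, -, rfl⟩ := hy
      rw [Finset.mem_insert, Finset.mem_image]
      by_cases hx : x = 0
      · exact Or.inl (by rw [hx])
      · exact Or.inr ⟨x, Finset.mem_erase.2 ⟨hx, Finset.mem_univ _⟩, rfl⟩
    exact (Finset.card_le_card h7).trans (Finset.card_insert_le _ _)
  have h7 : (Finset.univ.erase (0 : ZMod p × ZMod p)).card + 1 = p ^ 2 := by
    rw [Finset.card_erase_of_mem (Finset.mem_univ _), Finset.card_univ, Fintype.card_prod, ZMod.card,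
      pow_two]
    have := Nat.mul_pos (Fact.out : p.Prime).pos (Fact.out : p.Prime).pos
    omega
  omega

/-- The second flex. -/
theorem second_flex (h2 : (2 : ZMod p) ≠ 0) (h3 : (3 : ZMod p) ≠ 0) {ω : ZMod p}
    (hω : ω ^ 2 + ω + 1 = 0) (a2 : ZMod p) {α β d : ZMod p}
    (hb : β + α * ((α ^ 2 - a2) / 3) ≠ 0)
    (hd : (2 * α) ^ 3 - 54 * (β + α * ((α ^ 2 - a2) / 3)) = d ^ 3) :
    ∃ α' β' : ZMod p, gk 1 a2 (α', β') = gk 1 a2 (α, β) ∧ α' ^ 2 ≠ α ^ 2 ∧ (α' ≠ 0 ∨ β' ≠ 0) := by
  have h6 : (6 : ZMod p) ≠ 0 := by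
    have : (6 : ZMod p) = 2 * 3 := by norm_num
    rw [this]
    exact mul_ne_zero h2 h3
  have h9 : (9 : ZMod p) ≠ 0 := by
    have : (9 : ZMod p) = 3 * 3 := by norm_num
    rw [this]
    exact mul_ne_zero h3 h3
  obtain ⟨e, he⟩ : ∃ e, e = (α ^ 2 - a2) / 3 := ⟨_, rfl⟩
  obtain ⟨m, hm⟩ : ∃ m, m = β + α * e := ⟨_, rfl⟩
  rw [← he, ← hm] at hb hd
  obtain ⟨q, hq⟩ : ∃ q, q = ((2 * α) ^ 2 + 2 * α * d + d ^ 2) / 9 := ⟨_, rfl⟩
  have hq' : 9 * q = (2 * α) ^ 2 + 2 * α * d + d ^ 2 := by
    rw [hq]
    field_simp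
  have hmq : 6 * m = (2 * α - d) * q := by
    apply mul_left_cancel₀ h9
    linear_combination (-(2 * α - d)) * hq' - hd
  have hq0 : q ≠ 0 := by
    rintro h0
    rw [h0, mul_zero] at hmq
    exact hb ((mul_eq_zero.1 hmq).resolve_left h6)
  have hr : (2 * ω + 1) ^ 2 = -3 := by linear_combination 4 * hω
  have hr0 : 2 * ω + 1 ≠ 0 := by
    intro h0
    rw [h0, zero_pow two_ne_zero] at hr
    apply h3
    linear_combination hr
  obtain ⟨i, hi⟩ : ∃ i, i = (2 * ω + 1)⁻¹ := ⟨_, rfl⟩
  have hi2 : 3 * i ^ 2 = -1 := by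
    rw [hi]
    field_simp
    rw [hr]
    ring
  obtain ⟨α', hα'⟩ : ∃ α', α' = (α + d) * i := ⟨_, rfl⟩
  obtain ⟨m', hm'⟩ : ∃ m', m' = q * (2 * α + d) * i / 2 := ⟨_, rfl⟩
  have hm2 : 2 * m' = q * (2 * α + d) * i := by
    rw [hm']
    field_simp
  have F1 : α' ^ 2 = α ^ 2 - 3 * q := by
    apply mul_left_cancel₀ h3
    rw [hα']
    linear_combination (α + d) ^ 2 * hi2 + hq'
  have F3 : 2 * α' * m' = 2 * α * m - 3 * q ^ 2 := by
    apply mul_left_cancel₀ h6
    rw [hα']
    linear_combination (6 * (α + d) * i) * hm2 + (2 * q * (α + d) * (2 * α + d)) * hi2 -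
      2 * α * hmq + 2 * q * hq'
  have F2 : m' ^ 2 = m ^ 2 - q ^ 3 := by
    have h36 : (36 : ZMod p) ≠ 0 := by
      have : (36 : ZMod p) = 6 * 6 := by norm_num
      rw [this]
      exact mul_ne_zero h6 h6
    apply mul_left_cancel₀ h36
    linear_combination (9 * (2 * m' + q * (2 * α + d) * i)) * hm2 +
      (3 * q ^ 2 * (2 * α + d) ^ 2) * hi2 - (6 * m + (2 * α - d) * q) * hmq + 4 * q ^ 2 * hq'
  have E' : (1 * α' ^ 2 - a2) / 3 = e - q := by
    rw [one_mul, F1, he]
    field_simp
    ring
  have E : (1 * α ^ 2 - a2) / 3 = e := by rw [one_mul, he]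
  refine ⟨α', m' - α' * e, ?_, ?_, ?_⟩
  · unfold gk
    simp only [E, E']
    have hβ : β = m - α * e := by rw [hm]; ring
    rw [hβ]
    ext
    · simp only
      linear_combination F2 - e * F3 + e ^ 2 * F1
    · simp only
      linear_combination F3 - 2 * e * F1
  · rw [F1]
    intro h0
    have h7 : 3 * q = 0 := by linear_combination -h0
    exact hq0 ((mul_eq_zero.1 h7).resolve_left h3)
  · by_contra hcon
    push Not at hcon
    obtain ⟨c1, c2⟩ := hcon
    rw [c1, zero_mul, sub_zero] at c2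
    rw [c1, c2] at F3
    rw [c2] at F2
    rw [c1] at F1
    -- `α ^ 2 = 3 q`, `m ^ 2 = q ^ 3`, `2 α m = 3 q ^ 2`
    have h7 : (3 * q ^ 2) ^ 2 = 12 * q ^ 4 := by
      have e1 : 3 * q ^ 2 = 2 * α * m := by linear_combination F3
      have e2 : α ^ 2 = 3 * q := by linear_combination -F1
      have e3 : m ^ 2 = q ^ 3 := by linear_combination -F2
      rw [e1]
      linear_combination 4 * m ^ 2 * e2 + 12 * q * e3
    have h8 : 3 * q ^ 4 = 0 := by linear_combination -h7
    exact pow_ne_zero 4 hq0 ((mul_eq_zero.1 h8).resolve_left h3)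

theorem gk_card4 (h2 : (2 : ZMod p) ≠ 0) (h3 : (3 : ZMod p) ≠ 0) {ω : ZMod p}
    (hω : ω ^ 2 + ω + 1 = 0) (a2 : ZMod p) :
    12 * (Finset.univ.image (gk 1 a2)).card ≤ 5 * p ^ 2 + 3 * p + 12 := by
  obtain ⟨g, hg⟩ : ∃ g, g = gk 1 a2 := ⟨_, rfl⟩
  obtain ⟨A, hA⟩ : ∃ A : Finset (ZMod p × ZMod p), A = Finset.univ.filter fun x =>
    4 ≤ (Finset.univ.filter fun t => g t = g x).card := ⟨_, rfl⟩
  obtain ⟨Bs, hB⟩ : ∃ Bs : Finset (ZMod p × ZMod p), Bs = Finset.univ.filter fun x =>
    ¬ 4 ≤ (Finset.univ.filter fun t => g t = g x).card := ⟨_, rfl⟩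
  rw [← hg]
  have hsum : A.card + Bs.card = p ^ 2 := by
    have := Finset.card_filter_add_card_filter_not (s := (Finset.univ : Finset (ZMod p × ZMod p)))
      (fun x => 4 ≤ (Finset.univ.filter fun t => g t = g x).card)
    rw [Finset.card_univ, Fintype.card_prod, ZMod.card, ← pow_two] at this
    rw [hA, hB]
    exact this
  have h4 : 4 * (A.image g).card ≤ A.card := by
    refine Finset.mul_card_image_le_card (f := g) A 4 ?_
    intro y hy
    rw [Finset.mem_image] at hy
    obtain ⟨x, hx, rfl⟩ := hy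
    rw [hA, Finset.mem_filter] at hx
    refine hx.2.trans (Finset.card_le_card ?_)
    intro t ht
    rw [Finset.mem_filter] at ht ⊢
    refine ⟨?_, ht.2⟩
    rw [hA, Finset.mem_filter]
    refine ⟨Finset.mem_univ _, ?_⟩
    rw [ht.2]
    exact hx.2
  have h5 : 2 * ((Bs.erase 0).image g).card ≤ (Bs.erase 0).card := by
    refine two_image _ _ (fun x => (-x.1, -x.2)) ?_ ?_ ?_
    · intro x hx
      rw [Finset.mem_erase, hB, Finset.mem_filter] at hx ⊢
      refine ⟨fun h0 => hx.1 ?_, Finset.mem_univ _, ?_⟩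
      · have h1 := congrArg Prod.fst h0
        have h3 := congrArg Prod.snd h0
        exact Prod.ext (neg_eq_zero.1 h1) (neg_eq_zero.1 h3)
      · have h6 : g (-x.1, -x.2) = g x := by rw [hg]; exact gk_neg _ _ _
        rw [h6]
        exact hx.2.2
    · intro x hx h0
      rw [Finset.mem_erase] at hx
      apply hx.1
      have h1 : -x.1 = x.1 := congrArg Prod.fst h0
      have h3 : -x.2 = x.2 := congrArg Prod.snd h0
      have h4 : 2 * x.1 = 0 := by linear_combination -h1
      have h6 : 2 * x.2 = 0 := by linear_combination -h3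
      exact Prod.ext ((mul_eq_zero.1 h4).resolve_left h2) ((mul_eq_zero.1 h6).resolve_left h2)
    · intro x _
      rw [hg]
      exact gk_neg _ _ _
  have h6 : (Finset.univ.image g).card ≤ (A.image g).card + ((Bs.erase 0).image g).card + 1 := by
    have h7 : Finset.univ.image g ⊆ (A.image g ∪ (Bs.erase 0).image g) ∪ {g 0} := by
      intro y hy
      rw [Finset.mem_image] at hy
      obtain ⟨x, -, rfl⟩ := hy
      rw [Finset.mem_union, Finset.mem_union, Finset.mem_image, Finset.mem_image,
        Finset.mem_singleton]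
      by_cases hx : x = 0
      · exact Or.inr (by rw [hx])
      · by_cases hx4 : 4 ≤ (Finset.univ.filter fun t => g t = g x).card
        · refine Or.inl (Or.inl ⟨x, ?_, rfl⟩)
          rw [hA, Finset.mem_filter]
          exact ⟨Finset.mem_univ _, hx4⟩
        · refine Or.inl (Or.inr ⟨x, ?_, rfl⟩)
          rw [Finset.mem_erase, hB, Finset.mem_filter]
          exact ⟨hx, Finset.mem_univ _, hx4⟩
    refine (Finset.card_le_card h7).trans ((Finset.card_union_le _ _).trans ?_)
    rw [Finset.card_singleton]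
    exact Nat.add_le_add_right (Finset.card_union_le _ _) 1
  have h7 : (Bs.erase 0).card ≤ Bs.card := Finset.card_erase_le
  -- the elements of `A`
  obtain ⟨Cs, hCs⟩ : ∃ Cs : Finset (ZMod p), Cs = Finset.univ.image fun d : ZMod p => d ^ 3 :=
    ⟨_, rfl⟩
  have hCc : p ≤ 3 * Cs.card := by
    have h8 := Finset.card_le_mul_card_image (f := fun d : ZMod p => d ^ 3) Finset.univ 3 ?_
    · rwa [Finset.card_univ, ZMod.card, ← hCs] at h8
    · intro b _
      have h9 : (Finset.univ.filter fun d : ZMod p => d ^ 3 = b) ⊆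
          ((X ^ 3 - C b : (ZMod p)[X]).roots.toFinset) := by
        intro d hd
        rw [Finset.mem_filter] at hd
        rw [Multiset.mem_toFinset, mem_roots (X_pow_sub_C_ne_zero (by norm_num) b), IsRoot.def]
        simp only [eval_sub, eval_pow, eval_X, eval_C]
        rw [hd.2, sub_self]
      refine (Finset.card_le_card h9).trans ((Multiset.toFinset_card_le _).trans
        ((card_roots' _).trans ?_))
      rw [natDegree_X_pow_sub_C]
  have hAc : p * (Cs.card - 1) ≤ A.card := by
    have h54 : (54 : ZMod p) ≠ 0 := by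
      have : (54 : ZMod p) = 2 * (3 * (3 * 3)) := by norm_num
      rw [this]
      exact mul_ne_zero h2 (mul_ne_zero h3 (mul_ne_zero h3 h3))
    have h8 : ∀ α : ZMod p, Cs.card - 1 ≤
        (A.filter fun x => x.1 = α).card := by
      intro α
      refine le_trans (Finset.pred_card_le_card_erase (s := Cs) (a := (2 * α) ^ 3)) ?_
      apply Finset.card_le_card_of_injOn (fun w => (α, ((2 * α) ^ 3 - w) / 54 -
        α * ((α ^ 2 - a2) / 3)))
      · intro w hw
        rw [Finset.mem_coe, Finset.mem_erase, hCs, Finset.mem_image] at hw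
        obtain ⟨hw1, d, -, hd⟩ := hw
        rw [Finset.mem_coe, Finset.mem_filter]
        refine ⟨?_, rfl⟩
        rw [hA, Finset.mem_filter]
        refine ⟨Finset.mem_univ _, ?_⟩
        obtain ⟨β, hβ⟩ : ∃ β, β = ((2 * α) ^ 3 - w) / 54 - α * ((α ^ 2 - a2) / 3) := ⟨_, rfl⟩
        show 4 ≤ (Finset.univ.filter fun t => g t =
          g (α, ((2 * α) ^ 3 - w) / 54 - α * ((α ^ 2 - a2) / 3))).card
        rw [← hβ]
        have h9 : β + α * ((α ^ 2 - a2) / 3) = ((2 * α) ^ 3 - w) / 54 := by
          rw [hβ, sub_add_cancel]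
        have hb0 : β + α * ((α ^ 2 - a2) / 3) ≠ 0 := by
          rw [h9]
          refine div_ne_zero (fun h0 => hw1 ?_) h54
          linear_combination -h0
        obtain ⟨α', β', g1, g2, g3⟩ := second_flex h2 h3 hω a2 hb0 (d := d) (by
          rw [h9, hd]
          field_simp
          ring)
        have hne : ∀ u v : ZMod p, (u ≠ 0 ∨ v ≠ 0) → (u, v) ≠ (-u, -v) := by
          intro u v huv h0
          have k1 : u = -u := congrArg Prod.fst h0
          have k2 : v = -v := congrArg Prod.snd h0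
          have k3 : 2 * u = 0 := by linear_combination k1
          have k4 : 2 * v = 0 := by linear_combination k2
          rcases huv with h | h
          · exact h ((mul_eq_zero.1 k3).resolve_left h2)
          · exact h ((mul_eq_zero.1 k4).resolve_left h2)
        have hαβ : α ≠ 0 ∨ β ≠ 0 := by
          by_contra hcon
          push Not at hcon
          apply hb0
          rw [hcon.1, hcon.2]
          ring
        have n1 := hne α β hαβ
        have n2 := hne α' β' g3
        have m1 : (α, β) ≠ (α', β') := fun h0 => g2 (by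
          have : α = α' := congrArg Prod.fst h0
          rw [this])
        have m2 : (α, β) ≠ (-α', -β') := fun h0 => g2 (by
          have : α = -α' := congrArg Prod.fst h0
          rw [this, neg_sq])
        have m3 : (-α, -β) ≠ (α', β') := fun h0 => g2 (by
          have : -α = α' := congrArg Prod.fst h0
          rw [← this, neg_sq])
        have m4 : (-α, -β) ≠ (-α', -β') := fun h0 => g2 (by
          have : -α = -α' := congrArg Prod.fst h0
          rw [neg_injective this])
        have hsub : ({(α, β), (-α, -β), (α', β'), (-α', -β')} : Finset (ZMod p × ZMod p)) ⊆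
            Finset.univ.filter fun t => g t = g (α, β) := by
          intro t ht
          rw [Finset.mem_filter]
          refine ⟨Finset.mem_univ _, ?_⟩
          simp only [Finset.mem_insert, Finset.mem_singleton] at ht
          rw [hg]
          rcases ht with rfl | rfl | rfl | rfl
          · rfl
          · exact gk_neg 1 a2 (α, β)
          · exact g1
          · exact (gk_neg 1 a2 (α', β')).trans g1
        refine le_trans ?_ (Finset.card_le_card hsub)
        rw [Finset.card_insert_of_notMem, Finset.card_insert_of_notMem, Finset.card_pair n2]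
        · rw [Finset.mem_insert, Finset.mem_singleton]
          rintro (h | h)
          · exact m3 h
          · exact m4 h
        · rw [Finset.mem_insert, Finset.mem_insert, Finset.mem_singleton]
          rintro (h | h | h)
          · exact n1 h
          · exact m1 h
          · exact m2 h
      · intro w _ w' _ h0
        have h9 := congrArg Prod.snd h0
        simp only at h9
        rw [sub_left_inj, div_left_inj' h54] at h9
        exact sub_right_injective h9
    have h9 := Finset.card_eq_sum_card_fiberwise (f := fun x : ZMod p × ZMod p => x.1) (s := A)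
      (t := Finset.univ) (fun x _ => Finset.mem_coe.2 (Finset.mem_univ _))
    rw [h9]
    calc p * (Cs.card - 1) = ∑ _α : ZMod p, (Cs.card - 1) := by
          rw [Finset.sum_const, Finset.card_univ, ZMod.card, smul_eq_mul]
      _ ≤ _ := Finset.sum_le_sum fun α _ => h8 α
  have hp0 := (Fact.out : p.Prime).pos
  have h10 : p * p ≤ 3 * A.card + 3 * p := by
    have h11 : p * p ≤ p * (3 * Cs.card) := Nat.mul_le_mul_left p hCc
    have h12 : p * (3 * Cs.card) ≤ 3 * (p * (Cs.card - 1)) + 3 * p := by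
      rcases Nat.eq_zero_or_pos Cs.card with h | h
      · rw [h]
        omega
      · obtain ⟨n, hn⟩ : ∃ n, Cs.card = n + 1 := ⟨Cs.card - 1, by omega⟩
        rw [hn, Nat.add_sub_cancel]
        apply le_of_eq
        ring
    omega
  rw [pow_two] at hsum ⊢
  omega

theorem rt_card (h2 : (2 : ZMod p) ≠ 0) (h3 : (3 : ZMod p) ≠ 0) {ω : ZMod p}
    (hω : ω ^ 2 + ω + 1 = 0) (hp : 40 ≤ p) (a2 : ZMod p) :
    p ^ 2 ≤ 24 * ((Rt a2)ᶜ).ncard := by
  have hp2 : p ≠ 2 := by omega
  obtain ⟨ν, hν⟩ : ∃ ν : ZMod p, ¬ IsSquare ν := by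
    have h1 := card_nsq (p := p) hp2
    have h4 : 0 < (Finset.univ.filter fun x : ZMod p => ¬ IsSquare x).card := by omega
    obtain ⟨ν, hν⟩ := Finset.card_pos.1 h4
    exact ⟨ν, (Finset.mem_filter.1 hν).2⟩
  have hν0 : ν ≠ 0 := by
    rintro rfl
    exact hν ⟨0, by ring⟩
  have h1 := gk_card4 h2 h3 hω a2
  have h4 := gk_card h2 ν a2
  have h5 : (Rt a2).ncard ≤ (Finset.univ.image (gk 1 a2)).card +
      (Finset.univ.image (gk ν a2)).card + p := by
    refine (ncard_le (S := (Finset.univ.image (gk 1 a2) ∪ Finset.univ.image (gk ν a2)) ∪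
      Finset.univ.image fun x : ZMod p => (x, 3 * (-a2 / 3) ^ 2)) ?_).trans ?_
    · rintro y ⟨e, he⟩
      rw [Finset.mem_union, Finset.mem_union, Finset.mem_image, Finset.mem_image, Finset.mem_image]
      by_cases h0 : a2 + 3 * e = 0
      · refine Or.inr ⟨y.1, Finset.mem_univ _, ?_⟩
        rw [h0, mul_zero, zero_mul] at he
        have h6 : y.2 - 3 * e ^ 2 = 0 := pow_eq_zero_iff two_ne_zero |>.1 he
        have h7 : -a2 / 3 = e := by
          field_simp
          linear_combination -h0
        rw [h7]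
        exact Prod.ext rfl (by linear_combination -h6)
      · have key : ∀ κ α : ZMod p, κ ≠ 0 → α ≠ 0 → a2 + 3 * e = κ * α ^ 2 →
            gk κ a2 (α, (y.2 - 3 * e ^ 2) / (2 * κ * α)) = y := by
          intro κ α hκ hα hh
          have h8 : (κ * α ^ 2 - a2) / 3 = e := by
            rw [← hh]
            field_simp
            ring
          unfold gk
          simp only [h8]
          refine Prod.ext ?_ ?_
          · simp only
            have h9 : y.1 + e ^ 3 = (y.2 - 3 * e ^ 2) ^ 2 / (4 * (κ * α ^ 2)) := by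
              rw [he, hh]
              have h44 : (4 : ZMod p) ≠ 0 := by
                have : (4 : ZMod p) = 2 * 2 := by norm_num
                rw [this]
                exact mul_ne_zero h2 h2
              field_simp
            have h10 : κ * ((y.2 - 3 * e ^ 2) / (2 * κ * α)) ^ 2 =
                (y.2 - 3 * e ^ 2) ^ 2 / (4 * (κ * α ^ 2)) := by
              have h44 : (4 : ZMod p) ≠ 0 := by
                have : (4 : ZMod p) = 2 * 2 := by norm_num
                rw [this]
                exact mul_ne_zero h2 h2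
              field_simp
              ring
            rw [h10, ← h9]
            ring
          · simp only
            field_simp
            ring
        by_cases hsq : IsSquare (a2 + 3 * e)
        · obtain ⟨α, hα⟩ := hsq
          have hα0 : α ≠ 0 := by
            rintro rfl
            exact h0 (by rw [hα, mul_zero])
          exact Or.inl (Or.inl ⟨_, Finset.mem_univ _, key 1 α one_ne_zero hα0 (by rw [hα]; ring)⟩)
        · obtain ⟨α, hα⟩ : IsSquare ((a2 + 3 * e) * ν⁻¹) := by
            have q1 : quadraticChar (ZMod p) (a2 + 3 * e) = -1 :=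
              quadraticChar_neg_one_iff_not_isSquare.2 hsq
            have q2 : quadraticChar (ZMod p) ν⁻¹ = -1 := by
              apply quadraticChar_neg_one_iff_not_isSquare.2
              rintro ⟨x, hx⟩
              apply hν
              refine ⟨x⁻¹, ?_⟩
              rw [← mul_inv, ← hx, inv_inv]
            have q3 : quadraticChar (ZMod p) ((a2 + 3 * e) * ν⁻¹) = 1 := by
              rw [map_mul, q1, q2]
              norm_num
            exact (quadraticChar_one_iff_isSquare (mul_ne_zero h0 (inv_ne_zero hν0))).1 q3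
          have hα' : a2 + 3 * e = ν * α ^ 2 := by
            rw [pow_two, ← hα]
            field_simp
          have hα0 : α ≠ 0 := by
            rintro rfl
            exact h0 (by rw [hα']; ring)
          exact Or.inl (Or.inr ⟨_, Finset.mem_univ _, key ν α hν0 hα0 hα'⟩)
    · refine (Finset.card_union_le _ _).trans ?_
      have h6 : (Finset.univ.image fun x : ZMod p => (x, 3 * (-a2 / 3) ^ 2)).card ≤ p := by
        refine Finset.card_image_le.trans ?_
        rw [Finset.card_univ, ZMod.card]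
      have h7 := Finset.card_union_le (Finset.univ.image (gk 1 a2)) (Finset.univ.image (gk ν a2))
      omega
  have h6 := compl2 (Rt a2)
  have h7 : 40 * p ≤ p ^ 2 := by
    rw [pow_two]
    exact Nat.mul_le_mul_right p hp
  omega

/-- Products of two linear polynomials. -/
theorem prod_nsq (h2 : (2 : ZMod p) ≠ 0) {u b b' : ZMod p} (hu : u ≠ 0) (hb : b ≠ b')
    (v v' : ZMod p) : p ^ 2 ≤ 16 * {y : ZMod p × ZMod p |
      ¬ IsSquare ((v + b * y.2 + u * y.1) * (v' + b' * y.2 + u * y.1))}.ncard := by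
  have hp2 : p ≠ 2 := by
    intro h0
    apply h2
    have : ((2 : ℕ) : ZMod p) = 0 := by rw [ZMod.natCast_eq_zero_iff, h0]
    exact_mod_cast this
  obtain ⟨Ns, hNs⟩ : ∃ Ns : Finset (ZMod p), Ns = Finset.univ.filter fun x => ¬ IsSquare x :=
    ⟨_, rfl⟩
  obtain ⟨Ss, hSs⟩ : ∃ Ss : Finset (ZMod p), Ss = Finset.univ.filter fun x => IsSquare x ∧ x ≠ 0 :=
    ⟨_, rfl⟩
  have hp3 : 3 ≤ p := by
    have := (Fact.out : p.Prime).two_le
    omega
  have hF : ringChar (ZMod p) ≠ 2 := by
    rw [ZMod.ringChar_zmod_n]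
    exact hp2
  have hN : p ≤ 2 * Ns.card + 1 := by rw [hNs]; exact card_nsq hp2
  have hS : p ≤ 2 * Ss.card + 1 := by
    have h1 := card_chi hF (κ := 1) (Or.inl rfl)
    rw [ZMod.card] at h1
    have h3 : (Finset.univ.filter fun x : ZMod p => quadraticChar (ZMod p) x = 1).card ≤
        Ss.card := by
      apply Finset.card_le_card
      intro x hx
      rw [Finset.mem_filter] at hx
      rw [hSs, Finset.mem_filter]
      have hx0 : x ≠ 0 := by
        rintro rfl
        have := hx.2
        rw [MulChar.map_zero] at this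
        exact zero_ne_one this
      exact ⟨hx.1, (quadraticChar_one_iff_isSquare hx0).1 hx.2, hx0⟩
    omega
  have h4 : (Ss ×ˢ Ns).card ≤ {y : ZMod p × ZMod p |
      ¬ IsSquare ((v + b * y.2 + u * y.1) * (v' + b' * y.2 + u * y.1))}.ncard := by
    rw [← Set.ncard_coe_finset]
    have hbb : b - b' ≠ 0 := sub_ne_zero.2 hb
    have h5 : (fun t : ZMod p × ZMod p => ((t.1 - v - b * ((t.1 - v - (t.2 - v')) / (b - b'))) / u,
        (t.1 - v - (t.2 - v')) / (b - b'))) '' ((Ss ×ˢ Ns : Finset (ZMod p × ZMod p)) :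
        Set (ZMod p × ZMod p)) ⊆ {y : ZMod p × ZMod p |
          ¬ IsSquare ((v + b * y.2 + u * y.1) * (v' + b' * y.2 + u * y.1))} := by
      rintro _ ⟨t, ht, rfl⟩
      rw [Finset.mem_coe, Finset.mem_product, hSs, hNs, Finset.mem_filter, Finset.mem_filter] at ht
      obtain ⟨⟨-, ⟨x, hx⟩, hx0⟩, -, hn⟩ := ht
      rw [Set.mem_setOf_eq]
      have e1 : v + b * ((t.1 - v - (t.2 - v')) / (b - b')) +
          u * ((t.1 - v - b * ((t.1 - v - (t.2 - v')) / (b - b'))) / u) = t.1 := by
        field_simp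
        ring
      have e2 : v' + b' * ((t.1 - v - (t.2 - v')) / (b - b')) +
          u * ((t.1 - v - b * ((t.1 - v - (t.2 - v')) / (b - b'))) / u) = t.2 := by
        field_simp
        ring
      simp only [e1, e2]
      rintro ⟨w, hw⟩
      apply hn
      have hx1 : x ≠ 0 := by
        rintro rfl
        exact hx0 (by rw [hx, mul_zero])
      refine ⟨w / x, ?_⟩
      rw [hx] at hw
      field_simp
      linear_combination hw
    rw [← Set.ncard_image_of_injective _ (f := fun t : ZMod p × ZMod p =>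
      ((t.1 - v - b * ((t.1 - v - (t.2 - v')) / (b - b'))) / u,
        (t.1 - v - (t.2 - v')) / (b - b')))]
    · exact Set.ncard_le_ncard h5 (Set.toFinite _)
    · intro t t' h
      have k1 := congrArg Prod.fst h
      have k2 := congrArg Prod.snd h
      simp only at k1 k2
      rw [← k2, div_left_inj' hu] at k1
      have k3 : t.1 = t'.1 := by linear_combination k1
      rw [div_left_inj' hbb, k3] at k2
      exact Prod.ext k3 (by linear_combination -k2)
  rw [Finset.card_product] at h4
  have h6 : p * p ≤ 16 * (Ss.card * Ns.card) := by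
    have h7 : p ≤ 4 * Ss.card := by omega
    have h8 : p ≤ 4 * Ns.card := by omega
    calc p * p ≤ (4 * Ss.card) * (4 * Ns.card) := Nat.mul_le_mul h7 h8
      _ = _ := by ring
  rw [pow_two]
  omega

end two

end Pool.Agent.Helper23K9.Q6
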