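import Pool.Agent.Helper23K9.Q6.Zu
import Pool.Agent.Helper23K9.Q4.Dns
import Pool.Agent.Helper23K9.Q5.Dns

/-!
Almost all twists in pencils of cubic polynomials over number fields, and all constants at once.
-/

set_option autoImplicit false
set_option linter.all false

open Polynomial IsDedekindDomain WeierstrassCurve WeierstrassCurve.Affine NumberField
open scoped Classical IntermediateField

namespace Pool.Agent.Helper23K9.Q6

open Pool.Agent.TH115.GD (vInf pl Pt act incl rs ak IsCoc LocTriv Sep Comp IsTower Preserves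
  LocallyTrivial act_act vInf_poly)
open Pool.Agent.Helper7K9.T3 (TateAt IsTateClass IsTC IsInv tate_of_part crv3)
open Pool.Agent.Helper23K9.Q5 (el boxfin gal_root gal_adj)
open Pool.Agent.Helper23K9.Q4
open Pool.Agent.Helper23K9.Q3 (bad3)

section cf

variable {k M : Type} [Field k] [NumberField k] [Field M] [NumberField M] [Algebra k M]

theorem cub_cf (c : 𝓞 k) (v : Fin 3 → 𝓞 k) :
    cub (algebraMap (𝓞 M) M (algebraMap (𝓞 k) (𝓞 M) c)) (cf M v) =
      (cub (algebraMap (𝓞 k) k c) fun i => algebraMap (𝓞 k) k (v i)).map (algebraMap k M) := by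
  rw [cub_map]
  rfl

theorem cub_cf1 (v : Fin 3 → 𝓞 k) :
    cub 1 (cf M v) = (cub 1 fun i => algebraMap (𝓞 k) k (v i)).map (algebraMap k M) := by
  rw [cub_map, map_one]
  rfl

theorem cub_smul {R : Type} [CommRing R] (c : R) (v : Fin 3 → R) :
    C c * cub 1 v = cub c fun i => c * v i := by
  simp only [cub, C_mul, C_1]
  ring

/-- The integral root of unity. -/
theorem exists_w {z : M} (hz : z ^ 2 + z + 1 = 0) : ∃ w : 𝓞 M, w ^ 2 + w + 1 = 0 := by
  obtain ⟨w, hw⟩ := int_of (M := M) (x := z) ⟨X ^ 2 + X + 1, by monicity!, by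
    simp only [eval₂_add, eval₂_pow, eval₂_X, eval₂_one]
    exact hz⟩
  refine ⟨w, ?_⟩
  apply IsFractionRing.injective (𝓞 M) M
  simp only [map_add, map_pow, map_one, map_zero, hw]
  exact hz

end cf

section dens

variable {k k' K F : Type} [Field k] [NumberField k] [Field k'] [Algebra k k'] [Field K]
    [Algebra k[X] K] [Field F] [Algebra k'[X] F] [IsFractionRing k'[X] F] [Algebra K F]
    {J : Type} [Fintype J] (B : Module.Basis J ℤ (𝓞 k))

/-- **Almost all twists in pencils, uniformly.** -/
theorem dens_pen (hT : IsTower k k' K F) {a b : k[X]} (hbad : bad3 a b ≠ 0) {c : 𝓞 k}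
    (hc : c ≠ 0) : ZrU fun i : 𝓞 k × 𝓞 k => {x : Fin 1 × J → ℤ | ¬ TateD k' K F a b
      (cub (algebraMap (𝓞 k) k c) fun j =>
        algebraMap (𝓞 k) k ((![eln B x 0, i.1, i.2] : Fin 3 → 𝓞 k) j))} := by
  haveI := hT.sep
  haveI : IsSepClosed k' := IsSepClosure.sep_closed k
  haveI : IsGalois k k' := inferInstance
  haveI : CharZero k' := charZero_of_injective_algebraMap (algebraMap k k').injective
  haveI : IsAlgClosed k' := inferInstance
  obtain ⟨z, hz⟩ : ∃ z : k', z ^ 2 + z + 1 = 0 := by
    obtain ⟨z, hz⟩ := IsAlgClosed.exists_root (X ^ 2 + X + 1 : k'[X]) (by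
      have : (X ^ 2 + X + 1 : k'[X]).degree = 2 := by compute_degree!
      rw [this]
      norm_num)
    refine ⟨z, ?_⟩
    simpa [IsRoot.def] using hz
  haveI hfd : FiniteDimensional k (IntermediateField.adjoin k {z}) :=
    IntermediateField.finiteDimensional_adjoin fun x _ => Algebra.IsIntegral.isIntegral x
  haveI : NumberField (IntermediateField.adjoin k {z}) :=
    NumberField.of_module_finite k _
  haveI hfd2 : ∀ θ : k', FiniteDimensional k (IntermediateField.adjoin k {z, θ}) := fun θ =>
    IntermediateField.finiteDimensional_adjoin fun x _ => Algebra.IsIntegral.isIntegral x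
  haveI hnf : ∀ θ : k', NumberField (IntermediateField.adjoin k {z, θ}) := fun θ =>
    NumberField.of_module_finite k _
  have hmem : ∀ θ : k', θ ∈ IntermediateField.adjoin k {z, θ} := fun θ =>
    IntermediateField.subset_adjoin k _ (by simp)
  obtain ⟨w, hw⟩ : ∃ w : 𝓞 (IntermediateField.adjoin k {z}), w ^ 2 + w + 1 = 0 := by
    refine exists_w (z := ⟨z, IntermediateField.mem_adjoin_simple_self k z⟩) ?_
    apply (algebraMap (IntermediateField.adjoin k {z}) k').injective
    simp only [map_add, map_pow, map_one, map_zero]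
    exact hz
  have hc0 : algebraMap (𝓞 k) k c ≠ 0 := by
    rw [Ne, map_eq_zero_iff _ (IsFractionRing.injective (𝓞 k) k)]
    exact hc
  have hγ0 : algebraMap (𝓞 k) (𝓞 (IntermediateField.adjoin k {z})) c ≠ 0 := by
    intro h0
    have h1 := congrArg (algebraMap (𝓞 (IntermediateField.adjoin k {z}))
      (IntermediateField.adjoin k {z})) h0
    rw [map_zero] at h1
    have h2 : algebraMap k (IntermediateField.adjoin k {z}) (algebraMap (𝓞 k) k c) = 0 := h1
    exact (_root_.map_ne_zero (algebraMap k (IntermediateField.adjoin k {z}))).2 hc0 h2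
  have h1 : ZrU fun i : 𝓞 k × 𝓞 k =>
      (⋃ θ ∈ ((bad3 a b).map (algebraMap k k')).roots.toFinset, {x : Fin 1 × J → ℤ |
      IsSquare ((cub (algebraMap (𝓞 (IntermediateField.adjoin k {z, θ}))
        (IntermediateField.adjoin k {z, θ})
        (algebraMap (𝓞 k) (𝓞 (IntermediateField.adjoin k {z, θ})) c))
        (cf (IntermediateField.adjoin k {z, θ}) ![eln B x 0, i.1, i.2])).eval
        (⟨θ, hmem θ⟩ : IntermediateField.adjoin k {z, θ}))}) :=
    ZrU.biUnion _ _ fun θ _ => zu_val B _ _
  refine (((zu_dbl (M := IntermediateField.adjoin k {z}) B hγ0).union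
    (zu_flx (M := IntermediateField.adjoin k {z}) B hγ0 hw)).union h1).mono ?_
  intro i x hx
  by_contra hcon
  rw [Set.mem_union, Set.mem_union, not_or, not_or] at hcon
  obtain ⟨⟨h2, h3⟩, h4⟩ := hcon
  rw [Set.mem_setOf_eq, not_not, cub_cf] at h2 h3
  apply hx
  have hbad' : (bad3 a b).map (algebraMap k k') ≠ 0 :=
    (Polynomial.map_ne_zero_iff (algebraMap k k').injective).2 hbad
  refine critD hT (by norm_num) (by norm_num) hbad (fun π hπ _ => hπ.separable) ?_ ?_ hz ?_ ?_
  · rw [cub_deg hc0]
    exact ⟨1, rfl⟩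
  · rw [← Polynomial.separable_map (algebraMap k (IntermediateField.adjoin k {z}))]
    exact h2
  · intro θ hθ _ y hy e
    apply h4
    rw [Set.mem_iUnion₂]
    refine ⟨θ, ?_, ⟨y, hy⟩, ?_⟩
    · rw [Multiset.mem_toFinset, mem_roots hbad', IsRoot.def, eval_map_algebraMap]
      exact hθ
    · apply (algebraMap (IntermediateField.adjoin k {z, θ}) k').injective
      rw [map_mul]
      show algebraMap (IntermediateField.adjoin k {z, θ}) k' _ = y * y
      rw [← pow_two, e, cub_cf, eval_map_algebraMap, ← aeval_algebraMap_apply]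
      rfl
  · exact h3

/-- The Tate conjecture at 3 (`TateD`) for the quadratic twists by all the multiples `c D₀` of `D₀`
with `c ∈ k`, `c ≠ 0`, such that the values of `c D₀` at the roots of `bad` in `k` are zero or not
squares in `k(z)`. -/
def AllTwists (k' K F : Type) [Field k'] [Algebra k k'] [Field K] [Algebra k[X] K] [Field F]
    [Algebra k'[X] F] [IsFractionRing k'[X] F] [Algebra K F] (a b : k[X]) (z : k') (D₀ : k[X]) :
    Prop :=
  ∀ c : k, c ≠ 0 → (∀ θ : k, (bad3 a b).eval θ = 0 → D₀.eval θ ≠ 0 →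
    ∀ y ∈ IntermediateField.adjoin k {z}, y ^ 2 ≠ algebraMap k k' (c * D₀.eval θ)) →
    TateD k' K F a b (C c * D₀)

/-- **All the constants at once, for almost all cubic polynomials.** -/
theorem dens_con (hT : IsTower k k' K F) {a b : k[X]} (hbad : bad3 a b ≠ 0) {z : k'}
    (hz : z ^ 2 + z + 1 = 0) :
    ZrU fun i : 𝓞 k => {x : Fin 2 × J → ℤ | ¬ AllTwists k' K F a b z
      (cub 1 fun j => algebraMap (𝓞 k) k ((![eln B x 0, eln B x 1, i] : Fin 3 → 𝓞 k) j))} := by
  haveI := hT.sep
  haveI : IsSepClosed k' := IsSepClosure.sep_closed k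
  haveI : IsGalois k k' := inferInstance
  obtain ⟨Q, hQ⟩ : ∃ Q : k[X], Q = bad3 a b * (X ^ 2 + X + 1) := ⟨_, rfl⟩
  have hΦ : (X ^ 2 + X + 1 : k[X]) ≠ 0 := by
    intro h0
    have := congrArg (fun q : k[X] => q.coeff 0) h0
    simp at this
  have hQ0 : Q ≠ 0 := by
    rw [hQ]
    exact mul_ne_zero hbad hΦ
  have hzr : z ∈ Q.rootSet k' := by
    rw [mem_rootSet]
    refine ⟨hQ0, ?_⟩
    rw [hQ, map_mul]
    simp only [map_add, map_pow, aeval_X, map_one]
    rw [hz, mul_zero]
  have hbr : ∀ θ : k', aeval θ (bad3 a b) = 0 → θ ∈ Q.rootSet k' := by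
    intro θ h
    rw [mem_rootSet]
    refine ⟨hQ0, ?_⟩
    rw [hQ, map_mul, h, zero_mul]
  haveI : Finite (Q.rootSet k') := (rootSet_finite Q k').to_subtype
  haveI hfd : FiniteDimensional k (IntermediateField.adjoin k (Q.rootSet k')) :=
    IntermediateField.finiteDimensional_adjoin fun x _ => Algebra.IsIntegral.isIntegral x
  haveI : NumberField (IntermediateField.adjoin k (Q.rootSet k')) :=
    NumberField.of_module_finite k _
  haveI hfd1 : FiniteDimensional k (IntermediateField.adjoin k {z}) :=
    IntermediateField.finiteDimensional_adjoin fun x _ => Algebra.IsIntegral.isIntegral x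
  haveI : NumberField (IntermediateField.adjoin k {z}) :=
    NumberField.of_module_finite k _
  obtain ⟨w, hw⟩ : ∃ w : 𝓞 (IntermediateField.adjoin k {z}), w ^ 2 + w + 1 = 0 := by
    refine exists_w (z := ⟨z, IntermediateField.mem_adjoin_simple_self k z⟩) ?_
    apply (algebraMap (IntermediateField.adjoin k {z}) k').injective
    simp only [map_add, map_pow, map_one, map_zero]
    exact hz
  set M := IntermediateField.adjoin k (Q.rootSet k') with hM
  let R : Finset M := (Q.map (algebraMap k M)).roots.toFinset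
  have hR : ∀ (θ : k') (h : θ ∈ Q.rootSet k'),
      (⟨θ, IntermediateField.subset_adjoin k _ h⟩ : M) ∈ R := by
    intro θ h
    rw [Multiset.mem_toFinset, mem_roots ((Polynomial.map_ne_zero_iff (algebraMap k M).injective).2
      hQ0), IsRoot.def, eval_map_algebraMap]
    apply (algebraMap M k').injective
    rw [← aeval_algebraMap_apply, map_zero]
    exact (mem_rootSet.1 h).2
  have h1 : ZrU fun i : 𝓞 k => (⋃ q ∈ R.offDiag, {x : Fin 2 × J → ℤ |
      IsSquare ((cub 1 (cf M ![eln B x 0, eln B x 1, i])).eval q.1 *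
        (cub 1 (cf M ![eln B x 0, eln B x 1, i])).eval q.2)}) :=
    ZrU.biUnion _ _ fun q hq => za_val B (Finset.mem_offDiag.1 hq).2.2
  refine (((za_dbl (M := IntermediateField.adjoin k {z}) B).union
    (za_rt (M := IntermediateField.adjoin k {z}) B hw)).union h1).mono ?_
  intro i x hx
  rw [Set.mem_setOf_eq, AllTwists] at hx
  push Not at hx
  obtain ⟨c, hc, hc2, hnT⟩ := hx
  set D0 : k[X] := cub 1 fun j =>
    algebraMap (𝓞 k) k ((![eln B x 0, eln B x 1, i] : Fin 3 → 𝓞 k) j) with hD0
  by_contra hcon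
  rw [Set.mem_union, Set.mem_union, not_or, not_or] at hcon
  obtain ⟨⟨h2, h3⟩, h4⟩ := hcon
  rw [Set.mem_setOf_eq, not_not, cub_cf1, Polynomial.separable_map] at h2
  have hc' : algebraMap k k' c ≠ 0 := (_root_.map_ne_zero _).2 hc
  have hD3 : D0.natDegree = 3 := cub_deg one_ne_zero _
  apply hnT
  refine critD hT (by norm_num) (by norm_num) hbad (fun π hπ _ => hπ.separable) ?_ ?_ hz ?_ ?_
  · rw [natDegree_C_mul hc, hD3]
    exact ⟨1, rfl⟩
  · exact h2.unit_mul (isUnit_C.2 (isUnit_iff_ne_zero.2 hc))
  · intro θ hθ hDθ y hy e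
    rw [map_mul, aeval_C] at e hDθ
    by_cases hθk : θ ∈ Set.range (algebraMap k k')
    · obtain ⟨θ0, rfl⟩ := hθk
      have hle : IntermediateField.adjoin k {z, algebraMap k k' θ0} ≤
          IntermediateField.adjoin k {z} := by
        rw [IntermediateField.adjoin_le_iff]
        rintro w (rfl | hw)
        · exact IntermediateField.mem_adjoin_simple_self k _
        · rw [Set.mem_singleton_iff.1 hw]
          exact algebraMap_mem _ _
      have h5 : aeval (algebraMap k k' θ0) D0 = algebraMap k k' (D0.eval θ0) := by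
        rw [aeval_algebraMap_apply, coe_aeval_eq_eval]
      refine hc2 θ0 ?_ ?_ y (hle hy) ?_
      · rw [aeval_algebraMap_apply, map_eq_zero_iff _ (algebraMap k k').injective] at hθ
        exact hθ
      · intro h0
        apply hDθ
        rw [h5, h0, map_zero, mul_zero]
      · rw [e, map_mul, h5]
    · have hσ : ∃ σ : k' ≃ₐ[k] k', σ θ ≠ θ := by
        by_contra hcon
        push Not at hcon
        exact hθk ((InfiniteGalois.mem_range_algebraMap_iff_fixed θ).2 hcon)
      obtain ⟨σ, hσ⟩ := hσ
      have hθr := hbr θ hθ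
      obtain ⟨y1, y2⟩ := gal_adj Q σ hzr hθr hy
      apply h4
      rw [Set.mem_iUnion₂]
      refine ⟨(⟨θ, IntermediateField.subset_adjoin k _ hθr⟩,
        ⟨σ θ, IntermediateField.subset_adjoin k _ (gal_root Q σ hθr)⟩), ?_, ?_⟩
      · rw [Finset.mem_offDiag]
        refine ⟨hR _ hθr, hR _ (gal_root Q σ hθr), ?_⟩
        intro h
        exact hσ (congrArg (algebraMap M k') h).symm
      · refine ⟨⟨y, y1⟩ * ⟨σ y, y2⟩ / algebraMap k M c, ?_⟩
        apply (algebraMap M k').injective
        have e3 : algebraMap M k' (algebraMap k M c) = algebraMap k k' c := rfl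
        have e5 : (σ y) ^ 2 = algebraMap k k' c * aeval (σ θ) D0 := by
          rw [← map_pow, e, map_mul, σ.commutes]
          congr 1
          exact (aeval_algHom_apply σ.toAlgHom θ D0).symm
        have e4 : ∀ t : M, algebraMap M k' ((cub 1 (cf M ![eln B x 0, eln B x 1, i])).eval t) =
            aeval (algebraMap M k' t) D0 := by
          intro t
          rw [cub_cf1, eval_map_algebraMap, ← aeval_algebraMap_apply]
        simp only [map_mul, map_div₀, e3, e4]
        show aeval θ D0 * aeval (σ θ) D0 =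
          y * σ y / algebraMap k k' c * (y * σ y / algebraMap k k' c)
        field_simp
        have e6 : y ^ 2 * (σ y) ^ 2 = (algebraMap k k' c * aeval θ D0) *
            (algebraMap k k' c * aeval (σ θ) D0) := by rw [e, e5]
        linear_combination -e6
  · by_contra hno
    apply h3
    have h6 : (C c * D0).map (algebraMap k (IntermediateField.adjoin k {z})) =
        cub (algebraMap k (IntermediateField.adjoin k {z}) c) fun j =>
          algebraMap k (IntermediateField.adjoin k {z}) c *
            cf (IntermediateField.adjoin k {z}) ![eln B x 0, eln B x 1, i] j := by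
      rw [Polynomial.map_mul, map_C, ← cub_cf1, cub_smul]
    rw [h6] at hno
    exact rt_of_not ((_root_.map_ne_zero _).2 hc) hno

end dens

end Pool.Agent.Helper23K9.Q6
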