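import Pool.Agent.Helper23K9.Q6.Out
import Pool.Agent.Helper23K9.Q3.Dns

/-!
The linear polynomials.
-/

set_option autoImplicit false
set_option linter.all false

open Polynomial IsDedekindDomain WeierstrassCurve WeierstrassCurve.Affine NumberField
open scoped Classical IntermediateField

namespace Pool.Agent.Helper23K9.Q6

open Pool.Agent.TH115.GD (IsTower)
open Pool.Agent.Helper23K9.Q4
open Pool.Agent.Helper23K9.Q3 (bad3 AllC3 Tate3 twl3 dens_all')

section out

variable {k k' K F : Type} [Field k] [NumberField k] [Field k'] [Algebra k k'] [Field K]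
    [Algebra k[X] K] [Field F] [Algebra k'[X] F] [IsFractionRing k'[X] F] [Algebra K F]
    {J : Type} [Fintype J] (B : Module.Basis J ℤ (𝓞 k))

/-- `AllTwists` holds for almost all monic linear polynomials: the proportion of the integers `t` in
the box with the coordinates (with respect to the integral basis `B`) in `[-H, H]` such that
`AllTwists` does not hold for `D₀ = X - t` tends to zero. -/
def MostLinear (k' K F : Type) [Field k'] [Algebra k k'] [Field K] [Algebra k[X] K] [Field F]
    [Algebra k'[X] F] [IsFractionRing k'[X] F] [Algebra K F] (B : Module.Basis J ℤ (𝓞 k))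
    (a b : k[X]) (z : k') : Prop :=
  ∀ η : ℝ, 0 < η → ∃ H₀ : ℕ, ∀ H : ℕ, H₀ ≤ H →
    (({t : 𝓞 k | (∀ j, |B.repr t j| ≤ (H : ℤ)) ∧
      ¬ AllTwists k' K F a b z (X - C (algebraMap (𝓞 k) k t))}.ncard : ℕ) : ℝ) ≤
      η * (2 * H + 1) ^ Fintype.card J

theorem most_linear (hT : IsTower k k' K F) {a b : k[X]} (hbad : bad3 a b ≠ 0) {z : k'}
    (hz : z ^ 2 + z + 1 = 0) : MostLinear k' K F B a b z := by
  intro η hη
  obtain ⟨H0, hH⟩ := dens_all' B hT hbad hz hη
  refine ⟨H0, fun H hHH => ?_⟩
  have h := hH H hHH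
  have e : ∀ t : 𝓞 k, AllTwists k' K F a b z (X - C (algebraMap (𝓞 k) k t)) ↔
      AllC3 k' K F a b z (algebraMap (𝓞 k) k t) := by
    intro t
    unfold AllTwists AllC3
    refine forall_congr' fun c => forall_congr' fun hc => ?_
    have e1 : TateD k' K F a b (C c * (X - C (algebraMap (𝓞 k) k t))) ↔
        Tate3 k' K F a b c (algebraMap (𝓞 k) k t) := Iff.rfl
    have e2 : (∀ θ : k, (bad3 a b).eval θ = 0 → (X - C (algebraMap (𝓞 k) k t)).eval θ ≠ 0 →
        ∀ y ∈ IntermediateField.adjoin k {z}, y ^ 2 ≠ algebraMap k k'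
          (c * (X - C (algebraMap (𝓞 k) k t)).eval θ)) ↔
        (∀ θ : k, θ ≠ algebraMap (𝓞 k) k t → (bad3 a b).eval θ = 0 →
        ∀ y ∈ IntermediateField.adjoin k {z}, y ^ 2 ≠ algebraMap k k'
          (c * (θ - algebraMap (𝓞 k) k t))) := by
      simp only [eval_sub, eval_X, eval_C]
      constructor
      · intro h θ h1 h2
        exact h θ h2 (sub_ne_zero.2 h1)
      · intro h θ h2 h1
        exact h θ (sub_ne_zero.1 h1) h2
    rw [e1, e2]
  simp only [e]
  exact h

end out

end Pool.Agent.Helper23K9.Q6
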