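import Pool.Agent.Helper23K9.Q6.Dns

/-!
The statements in terms of boxes.
-/

set_option autoImplicit false
set_option linter.all false

open Polynomial IsDedekindDomain WeierstrassCurve WeierstrassCurve.Affine NumberField
open scoped Classical IntermediateField

namespace Pool.Agent.Helper23K9.Q6

open Pool.Agent.TH115.GD (IsTower)
open Pool.Agent.Helper23K9.Q4
open Pool.Agent.Helper23K9.Q3 (bad3)

section out

variable {k k' K F : Type} [Field k] [NumberField k] [Field k'] [Algebra k k'] [Field K]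
    [Algebra k[X] K] [Field F] [Algebra k'[X] F] [IsFractionRing k'[X] F] [Algebra K F]
    {J : Type} [Fintype J] (B : Module.Basis J ℤ (𝓞 k))

/-- `TateD` holds for almost all members of the pencils of cubic polynomials: for all integers `a₁`,
`a₂` the proportion of the `t` in the box with the coordinates (with respect to the integral basis
`B`) in `[-H, H]` such that `TateD` does not hold for `D = c X³ + a₂ X² + a₁ X + t` tends to zero,
uniformly in `a₁` and `a₂`. -/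
def MostInPencils (k' K F : Type) [Field k'] [Field K] [Algebra k[X] K] [Field F]
    [Algebra k'[X] F] [IsFractionRing k'[X] F] [Algebra K F] (B : Module.Basis J ℤ (𝓞 k))
    (a b : k[X]) (c : 𝓞 k) : Prop :=
  ∀ η : ℝ, 0 < η → ∃ H₀ : ℕ, ∀ H : ℕ, H₀ ≤ H → ∀ a₁ a₂ : 𝓞 k,
    (({t : 𝓞 k | (∀ j, |B.repr t j| ≤ (H : ℤ)) ∧
      ¬ TateD k' K F a b (C (algebraMap (𝓞 k) k c) * X ^ 3 + C (algebraMap (𝓞 k) k a₂) * X ^ 2 +
        C (algebraMap (𝓞 k) k a₁) * X + C (algebraMap (𝓞 k) k t))}.ncard : ℕ) : ℝ) ≤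
      η * (2 * H + 1) ^ Fintype.card J

/-- `AllTwists` holds for almost all monic cubic polynomials: for all integers `a₂` the proportion
of the pairs `(a₀, a₁)` in the box with the coordinates (with respect to the integral basis `B`) in
`[-H, H]` such that `AllTwists` does not hold for `D₀ = X³ + a₂ X² + a₁ X + a₀` tends to zero,
uniformly in `a₂`. -/
def MostMonic (k' K F : Type) [Field k'] [Algebra k k'] [Field K] [Algebra k[X] K] [Field F]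
    [Algebra k'[X] F] [IsFractionRing k'[X] F] [Algebra K F] (B : Module.Basis J ℤ (𝓞 k))
    (a b : k[X]) (z : k') : Prop :=
  ∀ η : ℝ, 0 < η → ∃ H₀ : ℕ, ∀ H : ℕ, H₀ ≤ H → ∀ a₂ : 𝓞 k,
    (({t : Fin 2 → 𝓞 k | (∀ i j, |B.repr (t i) j| ≤ (H : ℤ)) ∧
      ¬ AllTwists k' K F a b z (X ^ 3 + C (algebraMap (𝓞 k) k a₂) * X ^ 2 +
        C (algebraMap (𝓞 k) k (t 1)) * X + C (algebraMap (𝓞 k) k (t 0)))}.ncard : ℕ) : ℝ) ≤
      η * (2 * H + 1) ^ (2 * Fintype.card J)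

theorem most_pencils (hT : IsTower k k' K F) {a b : k[X]} (hbad : bad3 a b ≠ 0) {c : 𝓞 k}
    (hc : c ≠ 0) : MostInPencils k' K F B a b c := by
  intro η hη
  obtain ⟨H0, hH⟩ := intsn B (S := fun i : 𝓞 k × 𝓞 k => {t : Fin 1 → 𝓞 k |
    ¬ TateD k' K F a b (cub (algebraMap (𝓞 k) k c) fun j =>
        algebraMap (𝓞 k) k ((![t 0, i.1, i.2] : Fin 3 → 𝓞 k) j))}) (dens_pen B hT hbad hc) hη
  refine ⟨H0, fun H hHH a₁ a₂ => ?_⟩
  have h := hH H hHH (a₁, a₂)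
  rw [one_mul] at h
  refine le_trans ?_ h
  have hinj : Function.Injective fun (t : 𝓞 k) (_ : Fin 1) => t := fun s t h => congrFun h 0
  rw [← Set.ncard_image_of_injective _ hinj]
  have hfin : {t : Fin 1 → 𝓞 k | (∀ i j, |B.repr (t i) j| ≤ (H : ℤ)) ∧
      t ∈ (fun i : 𝓞 k × 𝓞 k => {t : Fin 1 → 𝓞 k |
    ¬ TateD k' K F a b (cub (algebraMap (𝓞 k) k c) fun j =>
        algebraMap (𝓞 k) k ((![t 0, i.1, i.2] : Fin 3 → 𝓞 k) j))}) (a₁, a₂)}.Finite := by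
    refine Set.Finite.subset (s := (fun y : Fin 1 × J → ℤ => eln B y) ''
      {x : Fin 1 × J → ℤ | (∀ i, |x i| ≤ (H : ℤ)) ∧ x ∈ Set.univ}) ?_ ?_
    · exact (Pool.Agent.Helper23K9.Q5.boxfin Set.univ H).image _
    · intro t ht
      refine ⟨fun ij => B.repr (t ij.1) ij.2, ⟨fun ij => ht.1 ij.1 ij.2, trivial⟩, ?_⟩
      funext i
      exact B.sum_repr (t i)
  have hsub : (fun (t : 𝓞 k) (_ : Fin 1) => t) '' {t : 𝓞 k | (∀ j, |B.repr t j| ≤ (H : ℤ)) ∧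
      ¬ TateD k' K F a b (C (algebraMap (𝓞 k) k c) * X ^ 3 + C (algebraMap (𝓞 k) k a₂) * X ^ 2 +
        C (algebraMap (𝓞 k) k a₁) * X + C (algebraMap (𝓞 k) k t))} ⊆
      {t : Fin 1 → 𝓞 k | (∀ i j, |B.repr (t i) j| ≤ (H : ℤ)) ∧
      t ∈ (fun i : 𝓞 k × 𝓞 k => {t : Fin 1 → 𝓞 k |
    ¬ TateD k' K F a b (cub (algebraMap (𝓞 k) k c) fun j =>
        algebraMap (𝓞 k) k ((![t 0, i.1, i.2] : Fin 3 → 𝓞 k) j))}) (a₁, a₂)} := by
    rintro _ ⟨t, ht, rfl⟩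
    exact ⟨fun _ j => ht.1 j, ht.2⟩
  exact_mod_cast Set.ncard_le_ncard hsub hfin

theorem most_monic (hT : IsTower k k' K F) {a b : k[X]} (hbad : bad3 a b ≠ 0) {z : k'}
    (hz : z ^ 2 + z + 1 = 0) : MostMonic k' K F B a b z := by
  intro η hη
  obtain ⟨H0, hH⟩ := intsn B (S := fun i : 𝓞 k => {t : Fin 2 → 𝓞 k |
    ¬ AllTwists k' K F a b z (cub 1 fun j =>
        algebraMap (𝓞 k) k ((![t 0, t 1, i] : Fin 3 → 𝓞 k) j))}) (dens_con B hT hbad hz) hη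
  refine ⟨H0, fun H hHH a₂ => ?_⟩
  have h := hH H hHH a₂
  have e : ∀ t : Fin 2 → 𝓞 k, (cub 1 fun j =>
      algebraMap (𝓞 k) k ((![t 0, t 1, a₂] : Fin 3 → 𝓞 k) j)) =
      X ^ 3 + C (algebraMap (𝓞 k) k a₂) * X ^ 2 +
        C (algebraMap (𝓞 k) k (t 1)) * X + C (algebraMap (𝓞 k) k (t 0)) := by
    intro t
    simp only [cub, C_1, one_mul, Matrix.cons_val_zero, Matrix.cons_val_one, Matrix.cons_val]
  have e2 : {t : Fin 2 → 𝓞 k | (∀ i j, |B.repr (t i) j| ≤ (H : ℤ)) ∧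
      t ∈ (fun i : 𝓞 k => {t : Fin 2 → 𝓞 k |
    ¬ AllTwists k' K F a b z (cub 1 fun j =>
        algebraMap (𝓞 k) k ((![t 0, t 1, i] : Fin 3 → 𝓞 k) j))}) a₂} =
      {t : Fin 2 → 𝓞 k | (∀ i j, |B.repr (t i) j| ≤ (H : ℤ)) ∧
      ¬ AllTwists k' K F a b z (X ^ 3 + C (algebraMap (𝓞 k) k a₂) * X ^ 2 +
        C (algebraMap (𝓞 k) k (t 1)) * X + C (algebraMap (𝓞 k) k (t 0)))} := by
    ext t
    simp only [Set.mem_setOf_eq]
    rw [e]
  rw [e2] at h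
  exact h

end out

end Pool.Agent.Helper23K9.Q6
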