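import Pool.Agent.Helper23K9.Q4.Zer

/-!
Sets of density zero, uniformly in families.
-/

set_option autoImplicit false
set_option linter.all false

open Polynomial NumberField
open scoped Classical

namespace Pool.Agent.Helper23K9.Q6

open Pool.Agent.R939.EI
open Pool.Agent.Helper23K9.Q5
open Pool.Agent.Helper23K9.Q4 (pre_card)

section zr

variable {I ι : Type} [Fintype ι]

/-- Density zero (in boxes), uniformly. -/
def ZrU (S : I → Set (ι → ℤ)) : Prop := ∀ ε : ℝ, 0 < ε → ∃ H0 : ℕ, ∀ H : ℕ, H0 ≤ H → ∀ i : I,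
  (({x : ι → ℤ | (∀ j, |x j| ≤ (H : ℤ)) ∧ x ∈ S i}.ncard : ℕ) : ℝ) ≤
    ε * (2 * H + 1) ^ Fintype.card ι

theorem ZrU.mono {S T : I → Set (ι → ℤ)} (h : ZrU T) (hST : ∀ i, S i ⊆ T i) : ZrU S := by
  intro ε hε
  obtain ⟨H0, hH⟩ := h ε hε
  refine ⟨H0, fun H hHH i => le_trans ?_ (hH H hHH i)⟩
  have hsub : {x : ι → ℤ | (∀ j, |x j| ≤ (H : ℤ)) ∧ x ∈ S i} ⊆
      {x : ι → ℤ | (∀ j, |x j| ≤ (H : ℤ)) ∧ x ∈ T i} := fun x hx => ⟨hx.1, hST i hx.2⟩
  exact_mod_cast Set.ncard_le_ncard hsub (boxfin (T i) H)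

theorem ZrU.union {S T : I → Set (ι → ℤ)} (h : ZrU S) (h' : ZrU T) : ZrU fun i => S i ∪ T i := by
  intro ε hε
  obtain ⟨H0, hH⟩ := h (ε / 2) (by positivity)
  obtain ⟨H1, hH1⟩ := h' (ε / 2) (by positivity)
  refine ⟨max H0 H1, fun H hHH i => ?_⟩
  have h1 := hH H ((le_max_left _ _).trans hHH) i
  have h2 := hH1 H ((le_max_right _ _).trans hHH) i
  have h3 : {x : ι → ℤ | (∀ j, |x j| ≤ (H : ℤ)) ∧ x ∈ S i ∪ T i} =
      {x : ι → ℤ | (∀ j, |x j| ≤ (H : ℤ)) ∧ x ∈ S i} ∪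
        {x : ι → ℤ | (∀ j, |x j| ≤ (H : ℤ)) ∧ x ∈ T i} := by
    ext x
    simp only [Set.mem_union, Set.mem_setOf_eq]
    tauto
  have h4 := Set.ncard_union_le {x : ι → ℤ | (∀ j, |x j| ≤ (H : ℤ)) ∧ x ∈ S i}
    {x : ι → ℤ | (∀ j, |x j| ≤ (H : ℤ)) ∧ x ∈ T i}
  rw [← h3] at h4
  have h5 : (({x : ι → ℤ | (∀ j, |x j| ≤ (H : ℤ)) ∧ x ∈ S i ∪ T i}.ncard : ℕ) : ℝ) ≤
      (({x : ι → ℤ | (∀ j, |x j| ≤ (H : ℤ)) ∧ x ∈ S i}.ncard : ℕ) : ℝ) +
      (({x : ι → ℤ | (∀ j, |x j| ≤ (H : ℤ)) ∧ x ∈ T i}.ncard : ℕ) : ℝ) := by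
    exact_mod_cast h4
  linarith

theorem ZrU.empty : ZrU fun _ : I => (∅ : Set (ι → ℤ)) := by
  intro ε hε
  refine ⟨0, fun H _ i => ?_⟩
  have : {x : ι → ℤ | (∀ j, |x j| ≤ (H : ℤ)) ∧ x ∈ (∅ : Set (ι → ℤ))} = ∅ := by
    ext v; simp
  rw [this, Set.ncard_empty]
  push_cast
  positivity

theorem ZrU.biUnion {J : Type} (s : Finset J) (f : J → I → Set (ι → ℤ))
    (h : ∀ j ∈ s, ZrU (f j)) : ZrU fun i => ⋃ j ∈ s, f j i := by
  induction s using Finset.induction_on with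
  | empty => simpa using ZrU.empty
  | insert a s ha ih =>
    simp only [Finset.set_biUnion_insert]
    exact (h a (Finset.mem_insert_self _ _)).union
      (ih fun j hj => h j (Finset.mem_insert_of_mem hj))

/-- **The sieve for infinitely many primes, uniformly.** -/
theorem zrU_sieve {δ : ℝ} (hδ0 : 0 < δ) (hδ : δ ≤ 1) (Ω : I → (p : ℕ) → Set (ι → ZMod p))
    (hΩ : ∀ N : ℕ, ∃ p : ℕ, N ≤ p ∧ p.Prime ∧
      ∀ i, δ * (p : ℝ) ^ Fintype.card ι ≤ (Ω i p).ncard) :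
    ZrU fun i => {x : ι → ℤ | ∀ p : ℕ, p.Prime → (fun j => (x j : ZMod p)) ∉ Ω i p} := by
  intro η hη
  obtain ⟨m, hm⟩ := exists_pow_lt_of_lt_one
    (show 0 < η / 2 ^ Fintype.card ι by positivity) (show 1 - δ < 1 by linarith)
  have hinf : {p : ℕ | p.Prime ∧
      ∀ i, δ * (p : ℝ) ^ Fintype.card ι ≤ (Ω i p).ncard}.Infinite := by
    rw [Set.infinite_iff_exists_gt]
    intro N
    obtain ⟨p, h1, h2, h3⟩ := hΩ (N + 1)
    exact ⟨p, ⟨h2, h3⟩, h1⟩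
  obtain ⟨P, hPs, hPc⟩ := hinf.exists_subset_card_eq m
  have hP : ∀ p ∈ P, p.Prime ∧ ∀ i, δ * (p : ℝ) ^ Fintype.card ι ≤ (Ω i p).ncard :=
    fun p hp => hPs hp
  refine ⟨∏ p ∈ P, p, fun H hH i => ?_⟩
  have h1 : {x : ι → ℤ | (∀ j, |x j| ≤ (H : ℤ)) ∧
      x ∈ {x : ι → ℤ | ∀ p : ℕ, p.Prime → (fun j => (x j : ZMod p)) ∉ Ω i p}} ⊆
        avoid P (Ω i) H := by
    intro x hx
    exact ⟨hx.1, fun p hp => hx.2 p (hP p hp).1⟩
  have hfin : (avoid P (Ω i) H).Finite := by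
    have : (Set.pi Set.univ fun _ : ι => Set.Icc (-(H : ℤ)) H).Finite :=
      Set.Finite.pi fun _ => Set.finite_Icc _ _
    refine this.subset ?_
    intro x hx j _
    exact abs_le.1 (hx.1 j)
  have h3 : (({x : ι → ℤ | (∀ j, |x j| ≤ (H : ℤ)) ∧
      x ∈ {x : ι → ℤ | ∀ p : ℕ, p.Prime → (fun j => (x j : ZMod p)) ∉ Ω i p}}.ncard : ℕ) : ℝ) ≤
      ((avoid P (Ω i) H).ncard : ℝ) := by
    exact_mod_cast Set.ncard_le_ncard h1 hfin
  refine h3.trans ((sieve P (fun p hp => (hP p hp).1) (Ω i) hδ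
    (fun p hp => (hP p hp).2 i) H).trans ?_)
  have h4 : (2 * (H : ℝ) + (∏ p ∈ P, p : ℕ)) ≤ 2 * (2 * H + 1) := by
    have : ((∏ p ∈ P, p : ℕ) : ℝ) ≤ (H : ℝ) := by exact_mod_cast hH
    have h0 : (0 : ℝ) ≤ (H : ℝ) := Nat.cast_nonneg _
    linarith
  calc (1 - δ) ^ P.card * (2 * (H : ℝ) + (∏ p ∈ P, p : ℕ)) ^ Fintype.card ι
      ≤ (1 - δ) ^ P.card * (2 * (2 * (H : ℝ) + 1)) ^ Fintype.card ι :=
        mul_le_mul_of_nonneg_left (pow_le_pow_left₀ (by positivity) h4 _)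
          (pow_nonneg (by linarith) _)
    _ = ((1 - δ) ^ m * 2 ^ Fintype.card ι) * (2 * (H : ℝ) + 1) ^ Fintype.card ι := by
        rw [hPc, mul_pow]; ring
    _ ≤ η * (2 * (H : ℝ) + 1) ^ Fintype.card ι := by
        refine mul_le_mul_of_nonneg_right ?_ (by positivity)
        have := hm.le
        rw [le_div_iff₀ (by positivity)] at this
        exact this

end zr

section zrn

variable {k M I : Type} [Field k] [NumberField k] [Field M] [NumberField M] [Algebra k M]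
  {J : Type} [Fintype J] (B : Module.Basis J ℤ (𝓞 k)) {n : ℕ}

/-- Tuples of integers with given coordinates. -/
noncomputable def eln {n : ℕ} (x : Fin n × J → ℤ) (i : Fin n) : 𝓞 k := el B fun j => x (i, j)

/-- The sieve for tuples of integers, uniformly. -/
theorem zrn {δ : ℝ} (hδ0 : 0 < δ) (hδ : δ ≤ 1) {N : ℕ} (hN : N ≠ 0)
    (S : I → (p : ℕ) → (𝓞 M →+* ZMod p) → Set (Fin n → ZMod p))
    (hS : ∀ (p : ℕ) [Fact p.Prime] (i : I) (φ : 𝓞 M →+* ZMod p), ¬ p ∣ N → N ≤ p →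
      δ * (p : ℝ) ^ n ≤ (S i p φ).ncard) :
    ZrU fun i => {x : Fin n × J → ℤ | ∀ (p : ℕ) (φ : 𝓞 M →+* ZMod p), p.Prime →
      (fun j => φ (algebraMap (𝓞 k) (𝓞 M) (eln B x j))) ∉ S i p φ} := by
  let Ω : I → (p : ℕ) → Set (Fin n × J → ZMod p) := fun i p => {y | ∃ φ : 𝓞 M →+* ZMod p,
    (fun i => ∑ j, y (i, j) * φ (algebraMap (𝓞 k) (𝓞 M) (B j))) ∈ S i p φ}
  have h1 : ZrU fun i => {x : Fin n × J → ℤ | ∀ p : ℕ, p.Prime →
      (fun j => (x j : ZMod p)) ∉ Ω i p} := by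
    refine zrU_sieve hδ0 hδ Ω fun N' => ?_
    obtain ⟨q, hq, hqN, ⟨φ⟩⟩ := Pool.Agent.H637R2.Leo.exists_hom M (N * (N' + N).factorial)
      (mul_ne_zero hN (Nat.factorial_ne_zero _))
    haveI : Fact q.Prime := ⟨hq⟩
    have hq1 : ¬ q ∣ N := fun h => hqN (h.mul_right _)
    have hq2 : N' + N < q := by
      by_contra hcon
      exact hqN (((Nat.Prime.dvd_factorial hq).2 (not_lt.1 hcon)).mul_left _)
    refine ⟨q, by omega, hq, fun i0 => ?_⟩
    let f : (Fin n × J → ZMod q) →+ (Fin n → ZMod q) :=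
      { toFun := fun y i => ∑ j, y (i, j) * φ (algebraMap (𝓞 k) (𝓞 M) (B j))
        map_zero' := by
          funext i
          simp
        map_add' := fun y y' => by
          funext i
          rw [Pi.add_apply, ← Finset.sum_add_distrib]
          exact Finset.sum_congr rfl fun j _ => by rw [Pi.add_apply, add_mul] }
    have hfe : ∀ y i, f y i = ∑ j, y (i, j) * φ (algebraMap (𝓞 k) (𝓞 M) (B j)) := fun y i => rfl
    have hsurj : Function.Surjective f := by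
      intro a
      have h2 : ∀ i, ∃ a' : 𝓞 k, φ (algebraMap (𝓞 k) (𝓞 M) a') = a i := by
        intro i
        obtain ⟨n, hn⟩ := ZMod.intCast_surjective (a i)
        exact ⟨(n : 𝓞 k), by rw [map_intCast, map_intCast, hn]⟩
      choose a' ha' using h2
      refine ⟨fun ij => ((B.repr (a' ij.1) ij.2 : ℤ) : ZMod q), ?_⟩
      funext i
      rw [hfe, ← ha' i]
      conv_rhs => rw [← B.sum_repr (a' i), map_sum, map_sum]
      exact Finset.sum_congr rfl fun j _ => by rw [zsmul_eq_mul, map_mul, map_mul, map_intCast,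
        map_intCast]
    obtain ⟨T, hT⟩ : ∃ T : Finset (Fin n → ZMod q), T = (Set.toFinite (S i0 q φ)).toFinset :=
      ⟨_, rfl⟩
    have hTc : ((S i0 q φ).ncard : ℕ) = T.card := by
      rw [hT, Set.ncard_eq_toFinset_card _ (Set.toFinite (S i0 q φ))]
    have hSc := hS q i0 φ hq1 (by omega)
    rw [hTc] at hSc
    obtain ⟨Y, hY⟩ : ∃ Y : Finset (Fin n × J → ZMod q), Y = Finset.univ.filter fun y => f y ∈ T :=
      ⟨_, rfl⟩
    have hcard : Y.card * Fintype.card (Fin n → ZMod q) =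
        T.card * Fintype.card (Fin n × J → ZMod q) := by
      rw [hY]
      convert pre_card f hsurj T
    rw [Fintype.card_fun, Fintype.card_fun, Fintype.card_fin, ZMod.card, Fintype.card_prod,
      Fintype.card_fin] at hcard
    have hsub : (Y : Set (Fin n × J → ZMod q)) ⊆ Ω i0 q := by
      intro y hy
      have h3 : f y ∈ T := by
        rw [hY] at hy
        simpa using hy
      rw [hT, Set.Finite.mem_toFinset] at h3
      exact ⟨φ, h3⟩
    have h4 := Set.ncard_le_ncard hsub (Set.toFinite _)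
    rw [Set.ncard_coe_finset] at h4
    have hq0 : (0 : ℝ) < (q : ℝ) ^ n := by
      have : (0 : ℝ) < q := by exact_mod_cast hq.pos
      positivity
    have h6 : (Y.card : ℝ) * (q : ℝ) ^ n = T.card * (q : ℝ) ^ (n * Fintype.card J) := by
      exact_mod_cast hcard
    have h7 : (Y.card : ℝ) ≤ ((Ω i0 q).ncard : ℝ) := by exact_mod_cast h4
    refine le_trans ?_ h7
    refine le_of_mul_le_mul_right ?_ hq0
    rw [h6, Fintype.card_prod, Fintype.card_fin]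
    have h8 : (0 : ℝ) ≤ (q : ℝ) ^ (n * Fintype.card J) := by positivity
    nlinarith
  refine h1.mono ?_
  intro i x hx p hp hmem
  obtain ⟨φ, hφ⟩ := hmem
  apply hx p φ hp
  convert hφ using 1
  funext i
  rw [eln, el, map_sum, map_sum]
  exact Finset.sum_congr rfl fun j _ => by rw [zsmul_eq_mul, map_mul, map_mul, map_intCast,
    map_intCast]

/-- Density zero in terms of tuples of integers. -/
theorem intsn {S : I → Set (Fin n → 𝓞 k)} (h : ZrU fun i => {x : Fin n × J → ℤ | eln B x ∈ S i})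
    {η : ℝ} (hη : 0 < η) : ∃ H0 : ℕ, ∀ H : ℕ, H0 ≤ H → ∀ i : I,
      (({t : Fin n → 𝓞 k | (∀ i j, |B.repr (t i) j| ≤ (H : ℤ)) ∧ t ∈ S i}.ncard : ℕ) : ℝ) ≤
        η * (2 * H + 1) ^ (n * Fintype.card J) := by
  obtain ⟨H0, hH⟩ := h η hη
  refine ⟨H0, fun H hHH i => ?_⟩
  have h0 := hH H hHH i
  rw [Fintype.card_prod, Fintype.card_fin] at h0
  refine le_trans ?_ h0
  let φ : (Fin n → 𝓞 k) → Fin n × J → ℤ := fun t ij => B.repr (t ij.1) ij.2
  have hφ : ∀ t, eln B (φ t) = t := fun t => funext fun i => B.sum_repr (t i)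
  have hinj : Function.Injective φ := fun s t h => by rw [← hφ s, ← hφ t, h]
  rw [← Set.ncard_image_of_injective _ hinj]
  have hsub : φ '' {t : Fin n → 𝓞 k | (∀ i j, |B.repr (t i) j| ≤ (H : ℤ)) ∧ t ∈ S i} ⊆
      {x : Fin n × J → ℤ | (∀ i, |x i| ≤ (H : ℤ)) ∧ x ∈ {x : Fin n × J → ℤ | eln B x ∈ S i}} := by
    rintro _ ⟨t, ht, rfl⟩
    refine ⟨fun ij => ht.1 ij.1 ij.2, ?_⟩
    rw [Set.mem_setOf_eq, hφ]
    exact ht.2
  exact_mod_cast Set.ncard_le_ncard hsub (boxfin _ H)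

end zrn

end Pool.Agent.Helper23K9.Q6
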