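import Pool.Agent.Helper23K9.Q6.Uni
import Pool.Agent.Helper23K9.Q6.Cnt

/-!
Sets of density zero of cubic polynomials, uniformly.
-/

set_option autoImplicit false
set_option linter.all false

open Polynomial NumberField
open scoped Classical

namespace Pool.Agent.Helper23K9.Q6

open Pool.Agent.R939.EI
open Pool.Agent.Helper23K9.Q5
open Pool.Agent.Helper23K9.Q4

section red

variable {M : Type} [Field M] [NumberField M] {p : ℕ} [Fact p.Prime]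

/-- Reduction of polynomials with a double root. -/
theorem dbl_of {γ : 𝓞 M} {A : Fin 3 → 𝓞 M} (hγ : γ ≠ 0)
    (h : ¬ (cub (algebraMap (𝓞 M) M γ) fun i => algebraMap (𝓞 M) M (A i)).Separable)
    (φ : 𝓞 M →+* ZMod p) (hφγ : φ γ ≠ 0) :
    ∃ e f, φ (A 0) = -(φ γ * (e ^ 2 * f)) ∧ φ (A 1) = φ γ * (e ^ 2 + 2 * e * f) ∧
      φ (A 2) = -(φ γ * (2 * e + f)) := by
  obtain ⟨c, hc⟩ : ∃ c, c = algebraMap (𝓞 M) M γ := ⟨_, rfl⟩
  have hc0 : c ≠ 0 := by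
    rw [hc, Ne, map_eq_zero_iff _ (IsFractionRing.injective (𝓞 M) M)]
    exact hγ
  rw [← hc] at h
  rw [PerfectField.separable_iff_squarefree,
    squarefree_iff_irreducible_sq_not_dvd_of_ne_zero (cub_ne hc0 _)] at h
  push Not at h
  obtain ⟨π, hπ, hdvd⟩ := h
  have hπ0 : π ≠ 0 := hπ.ne_zero
  have hdeg : π.natDegree = 1 := by
    have h1 := natDegree_le_of_dvd hdvd (cub_ne hc0 _)
    rw [natDegree_mul hπ0 hπ0, cub_deg hc0] at h1
    have h2 := hπ.natDegree_pos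
    omega
  obtain ⟨e, he⟩ : ∃ e : M, IsRoot π e := exists_root_of_degree_eq_one (by
    rw [degree_eq_natDegree hπ0, hdeg]
    rfl)
  obtain ⟨g, hg⟩ : (X - C e) ^ 2 ∣ cub c fun i => algebraMap (𝓞 M) M (A i) := by
    rw [pow_two]
    exact (mul_dvd_mul (dvd_iff_isRoot.2 he) (dvd_iff_isRoot.2 he)).trans hdvd
  have hm2 : ((X - C e) ^ 2 : M[X]).Monic := (monic_X_sub_C e).pow 2
  have hg0 : g ≠ 0 := by
    rintro rfl
    rw [mul_zero] at hg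
    exact cub_ne hc0 _ hg
  have hgd : g.natDegree = 1 := by
    have h1 := congrArg natDegree hg
    rw [hm2.natDegree_mul' hg0, cub_deg hc0, natDegree_pow, natDegree_X_sub_C] at h1
    omega
  have hgl : g.coeff 1 = c := by
    have h1 : (cub c fun i => algebraMap (𝓞 M) M (A i)).leadingCoeff = g.leadingCoeff := by
      rw [hg, leadingCoeff_monic_mul hm2]
    rw [leadingCoeff, leadingCoeff, cub_deg hc0, hgd, cub_lead] at h1
    exact h1.symm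
  obtain ⟨f, hf⟩ : ∃ f, f = -(g.coeff 0) / c := ⟨_, rfl⟩
  have hgX : g = C c * (X - C f) := by
    have h1 := eq_X_add_C_of_natDegree_le_one hgd.le
    have h3 : g.coeff 0 = -(c * f) := by
      rw [hf]
      field_simp
    rw [hgl, h3] at h1
    rw [h1, C_neg, C_mul]
    ring
  have hg' : (cub c fun i => algebraMap (𝓞 M) M (A i)) = C c * ((X - C e) ^ 2 * (X - C f)) := by
    rw [hg, hgX]
    ring
  rw [← cub_dbl] at hg'
  have ha := cub_inj hg'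
  have hAa : ∀ i, algebraMap (𝓞 M) M (A i) = dbl c e f i := by
    intro i
    rw [← ha]
  have r0 : algebraMap (𝓞 M) M (A 0) = -(c * (e ^ 2 * f)) := by rw [hAa]; simp [dbl]
  have r1 : algebraMap (𝓞 M) M (A 1) = c * (e ^ 2 + 2 * e * f) := by rw [hAa]; simp [dbl]
  have r2 : algebraMap (𝓞 M) M (A 2) = -(c * (2 * e + f)) := by rw [hAa]; simp [dbl]
  -- integrality
  obtain ⟨E, hE⟩ := int_of (M := M) (x := c * e) ⟨cub 1 ![γ ^ 2 * A 0, γ * A 1, A 2],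
    cub_monic _, by
      rw [← eval_map, cub_map, root_int]
      simp only [Matrix.cons_val_zero, Matrix.cons_val_one, Matrix.cons_val, map_mul, map_pow,
        map_one, ← hc, r0, r1, r2]
      ring⟩
  obtain ⟨G, hG⟩ : ∃ G : 𝓞 M, algebraMap (𝓞 M) M G = c * f := by
    refine ⟨-(A 2) - 2 * E, ?_⟩
    rw [map_sub, map_neg, r2, map_mul, hE, map_ofNat]
    ring
  have q0 : γ ^ 2 * A 0 = -(E ^ 2 * G) := by
    apply IsFractionRing.injective (𝓞 M) M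
    simp only [map_neg, map_mul, map_pow, ← hc, hE, hG, r0]
    ring
  have q1 : γ * A 1 = E ^ 2 + 2 * E * G := by
    apply IsFractionRing.injective (𝓞 M) M
    simp only [map_add, map_mul, map_pow, map_ofNat, ← hc, hE, hG, r1]
    ring
  have q2 : A 2 = -(2 * E + G) := by
    apply IsFractionRing.injective (𝓞 M) M
    simp only [map_neg, map_add, map_mul, map_ofNat, hE, hG, r2]
    ring
  have t0 := congrArg φ q0
  have t1 := congrArg φ q1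
  have t2 := congrArg φ q2
  simp only [map_add, map_neg, map_mul, map_pow, map_ofNat] at t0 t1 t2
  obtain ⟨g1, hg1⟩ : ∃ g1, g1 = φ γ := ⟨_, rfl⟩
  rw [← hg1] at t0 t1 hφγ ⊢
  refine ⟨φ E / g1, φ G / g1, ?_⟩
  have eE : φ E = g1 * (φ E / g1) := by field_simp
  have eG : φ G = g1 * (φ G / g1) := by field_simp
  generalize φ E / g1 = u at *
  generalize φ G / g1 = v at *
  rw [eE, eG] at t0 t1 t2
  refine ⟨?_, ?_, ?_⟩
  · apply mul_left_cancel₀ (pow_ne_zero 2 hφγ)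
    rw [t0]
    ring
  · apply mul_left_cancel₀ hφγ
    rw [t1]
    ring
  · rw [t2]
    ring

/-- Reduction of polynomials with points of order three. -/
theorem flx_of {γ : 𝓞 M} {A : Fin 3 → 𝓞 M} (hγ : γ ≠ 0)
    (h : ¬ NoThree (cub (algebraMap (𝓞 M) M γ) fun i => algebraMap (𝓞 M) M (A i)))
    (φ : 𝓞 M →+* ZMod p) (hφγ : φ γ ≠ 0) (h3p : (3 : ZMod p) ≠ 0) :
    ∃ α β e, φ (A 0) = β ^ 2 - φ γ * e ^ 3 ∧ φ (A 1) = 2 * α * β + 3 * φ γ * e ^ 2 ∧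
      φ (A 2) = α ^ 2 - 3 * φ γ * e := by
  obtain ⟨c, hc⟩ : ∃ c, c = algebraMap (𝓞 M) M γ := ⟨_, rfl⟩
  have hc0 : c ≠ 0 := by
    rw [hc, Ne, map_eq_zero_iff _ (IsFractionRing.injective (𝓞 M) M)]
    exact hγ
  rw [← hc] at h
  obtain ⟨α, β, e, ha⟩ := not_NoThree hc0 h
  have hAa : ∀ i, algebraMap (𝓞 M) M (A i) = flx c α β e i := by
    intro i
    rw [← ha]
  have r0 : algebraMap (𝓞 M) M (A 0) = β ^ 2 - c * e ^ 3 := by rw [hAa]; simp [flx]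
  have r1 : algebraMap (𝓞 M) M (A 1) = 2 * α * β + 3 * c * e ^ 2 := by rw [hAa]; simp [flx]
  have r2 : algebraMap (𝓞 M) M (A 2) = α ^ 2 - 3 * c * e := by rw [hAa]; simp [flx]
  -- integrality
  obtain ⟨E, hE⟩ := int_of (M := M) (x := 3 * c * e) ⟨X ^ 4 + (C (4 * A 2) * X ^ 3 +
      C (18 * (γ * A 1)) * X ^ 2 +
      C (108 * (γ ^ 2 * A 0)) * X + C (27 * (4 * A 2 * (γ ^ 2 * A 0) - (γ * A 1) ^ 2))), by
      refine monic_X_pow_add (n := 4) ?_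
      refine lt_of_le_of_lt (b := ((3 : ℕ) : WithBot ℕ)) ?_ (by exact_mod_cast (by norm_num : 3 < 4))
      compute_degree
      exact le_rfl, by
      rw [eval₂_add, eval₂_add, eval₂_add, eval₂_add, eval₂_mul, eval₂_mul, eval₂_mul, eval₂_X_pow,
        eval₂_X_pow, eval₂_X_pow, eval₂_C, eval₂_C, eval₂_C, eval₂_C, eval₂_X]
      simp only [map_mul, map_sub, map_pow, map_ofNat, r0, r1, r2, ← hc]
      ring⟩
  obtain ⟨α1, hα⟩ := int_of (M := M) (x := α) (IsIntegral.of_pow (n := 2) (by norm_num) (by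
    have : α ^ 2 = algebraMap (𝓞 M) M (A 2 + E) := by
      rw [map_add, hE, r2]; ring
    rw [this]
    exact isIntegral_algebraMap))
  obtain ⟨β1, hβ⟩ := int_of (M := M) (x := 9 * c * β) (IsIntegral.of_pow (n := 2) (by norm_num) (by
    have : (9 * c * β) ^ 2 = algebraMap (𝓞 M) M (81 * (γ ^ 2 * A 0) + 3 * E ^ 3) := by
      simp only [map_add, map_mul, map_pow, map_ofNat, hE, r0, ← hc]; ring
    rw [this]
    exact isIntegral_algebraMap))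
  have q0 : 81 * (γ ^ 2 * A 0) = β1 ^ 2 - 3 * E ^ 3 := by
    apply IsFractionRing.injective (𝓞 M) M
    simp only [map_sub, map_mul, map_pow, map_ofNat, hE, hβ, r0, ← hc]
    ring
  have q1 : 9 * (γ * A 1) = 2 * α1 * β1 + 3 * E ^ 2 := by
    apply IsFractionRing.injective (𝓞 M) M
    simp only [map_add, map_mul, map_pow, map_ofNat, hE, hβ, hα, r1, ← hc]
    ring
  have q2 : A 2 = α1 ^ 2 - E := by
    apply IsFractionRing.injective (𝓞 M) M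
    simp only [map_sub, map_mul, map_pow, map_ofNat, hE, hα, r2]
  have h9p : (9 : ZMod p) ≠ 0 := by
    have : (9 : ZMod p) = 3 * 3 := by norm_num
    rw [this]
    exact mul_ne_zero h3p h3p
  have t0 := congrArg φ q0
  have t1 := congrArg φ q1
  have t2 := congrArg φ q2
  simp only [map_add, map_sub, map_mul, map_pow, map_ofNat] at t0 t1 t2
  have h81 : (81 : ZMod p) ≠ 0 := by
    have : (81 : ZMod p) = 9 * 9 := by norm_num
    rw [this]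
    exact mul_ne_zero h9p h9p
  obtain ⟨g1, hg1⟩ : ∃ g1, g1 = φ γ := ⟨_, rfl⟩
  rw [← hg1] at t0 t1 hφγ ⊢
  refine ⟨φ α1, φ β1 / (9 * g1), φ E / (3 * g1), ?_⟩
  have e9 : φ β1 = 9 * g1 * (φ β1 / (9 * g1)) := by field_simp
  have e3 : φ E = 3 * g1 * (φ E / (3 * g1)) := by field_simp
  generalize φ β1 / (9 * g1) = u at *
  generalize φ E / (3 * g1) = v at *
  rw [e9, e3] at t0 t1
  rw [e3] at t2
  refine ⟨?_, ?_, ?_⟩
  · apply mul_left_cancel₀ (mul_ne_zero h81 (pow_ne_zero 2 hφγ))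
    linear_combination t0
  · apply mul_left_cancel₀ (mul_ne_zero h9p hφγ)
    linear_combination t1
  · rw [t2]

/-- Reduction of roots of the third division polynomial. -/
theorem rt_of {A : Fin 3 → 𝓞 M} {e : M}
    (h : (algebraMap (𝓞 M) M (A 1) - 3 * e ^ 2) ^ 2 =
      4 * (algebraMap (𝓞 M) M (A 2) + 3 * e) * (algebraMap (𝓞 M) M (A 0) + e ^ 3))
    (φ : 𝓞 M →+* ZMod p) (h3p : (3 : ZMod p) ≠ 0) :
    (φ (A 0), φ (A 1)) ∈ Rt (φ (A 2)) := by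
  obtain ⟨E, hE⟩ := int_of (M := M) (x := 3 * e) ⟨X ^ 4 + (C (4 * A 2) * X ^ 3 +
      C (18 * A 1) * X ^ 2 +
      C (108 * A 0) * X + C (27 * (4 * A 2 * A 0 - A 1 ^ 2))), by
      refine monic_X_pow_add (n := 4) ?_
      refine lt_of_le_of_lt (b := ((3 : ℕ) : WithBot ℕ)) ?_ (by exact_mod_cast (by norm_num : 3 < 4))
      compute_degree
      exact le_rfl, by
      rw [eval₂_add, eval₂_add, eval₂_add, eval₂_add, eval₂_mul, eval₂_mul, eval₂_mul, eval₂_X_pow,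
        eval₂_X_pow, eval₂_X_pow, eval₂_C, eval₂_C, eval₂_C, eval₂_C, eval₂_X]
      simp only [map_mul, map_sub, map_pow, map_ofNat]
      linear_combination -27 * h⟩
  have q : E ^ 4 + (4 * A 2) * E ^ 3 + (18 * A 1) * E ^ 2 + (108 * A 0) * E +
      27 * (4 * A 2 * A 0 - A 1 ^ 2) = 0 := by
    apply IsFractionRing.injective (𝓞 M) M
    simp only [map_add, map_sub, map_mul, map_pow, map_ofNat, hE, map_zero]
    linear_combination -27 * h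
  have t := congrArg φ q
  simp only [map_add, map_sub, map_mul, map_pow, map_ofNat, map_zero] at t
  have h27 : (27 : ZMod p) ≠ 0 := by
    have : (27 : ZMod p) = 3 * (3 * 3) := by norm_num
    rw [this]
    exact mul_ne_zero h3p (mul_ne_zero h3p h3p)
  refine ⟨φ E / 3, ?_⟩
  have e3 : φ E = 3 * (φ E / 3) := by field_simp
  generalize φ E / 3 = v at *
  rw [e3] at t
  show (φ (A 1) - 3 * v ^ 2) ^ 2 = 4 * (φ (A 2) + 3 * v) * (φ (A 0) + v ^ 3)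
  apply mul_left_cancel₀ h27
  linear_combination -t

omit [NumberField M] in
/-- Points of order three give roots, for all constants. -/
theorem rt_of_not {c : M} (hc0 : c ≠ 0) {a : Fin 3 → M}
    (h : ¬ NoThree (cub c fun i => c * a i)) :
    ∃ e : M, (a 1 - 3 * e ^ 2) ^ 2 = 4 * (a 2 + 3 * e) * (a 0 + e ^ 3) := by
  obtain ⟨α, β, e, ha⟩ := not_NoThree hc0 h
  have r0 : c * a 0 = β ^ 2 - c * e ^ 3 := by
    have := congrFun ha 0
    simpa [flx] using this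
  have r1 : c * a 1 = 2 * α * β + 3 * c * e ^ 2 := by
    have := congrFun ha 1
    simpa [flx] using this
  have r2 : c * a 2 = α ^ 2 - 3 * c * e := by
    have := congrFun ha 2
    simpa [flx] using this
  refine ⟨e, ?_⟩
  apply mul_left_cancel₀ (pow_ne_zero 2 hc0)
  have e1 : c * (a 1 - 3 * e ^ 2) = 2 * α * β := by linear_combination r1
  have e2 : c * (a 2 + 3 * e) = α ^ 2 := by linear_combination r2
  have e3 : c * (a 0 + e ^ 3) = β ^ 2 := by linear_combination r0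
  calc c ^ 2 * (a 1 - 3 * e ^ 2) ^ 2 = (c * (a 1 - 3 * e ^ 2)) ^ 2 := by ring
    _ = 4 * (c * (a 2 + 3 * e)) * (c * (a 0 + e ^ 3)) := by
        rw [e1, e2, e3]
        ring
    _ = _ := by ring

/-- Values at points with a denominator. -/
theorem val_of {γ : 𝓞 M} {A : Fin 3 → 𝓞 M} {θ : M} {n : ℤ} {θ1 : 𝓞 M}
    (e : algebraMap (𝓞 M) M θ1 = n * θ) :
    algebraMap (𝓞 M) M ((n : 𝓞 M) * (γ * θ1 ^ 3) + ((n : 𝓞 M) ^ 2 * θ1 ^ 2 * A 2 +
      (n : 𝓞 M) ^ 3 * θ1 * A 1 + (n : 𝓞 M) ^ 4 * A 0)) =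
    (n : M) ^ 4 * (cub (algebraMap (𝓞 M) M γ) fun i => algebraMap (𝓞 M) M (A i)).eval θ := by
  rw [root_int]
  simp only [map_add, map_mul, map_pow, map_intCast, e]
  ring

end red

section zu

variable {k M : Type} [Field k] [NumberField k] [Field M] [NumberField M] [Algebra k M]
  {J : Type} [Fintype J] (B : Module.Basis J ℤ (𝓞 k))

/-- The coefficients in `M`. -/
noncomputable def cf (M : Type) [Field M] [NumberField M] [Algebra k M] (v : Fin 3 → 𝓞 k) :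
    Fin 3 → M := fun i => algebraMap (𝓞 M) M (algebraMap (𝓞 k) (𝓞 M) (v i))

theorem p_ne {p : ℕ} [Fact p.Prime] {N m : ℕ} (h : ¬ p ∣ N) (hm : m ∣ N) : (m : ZMod p) ≠ 0 := by
  intro h0
  rw [ZMod.natCast_eq_zero_iff] at h0
  exact h (h0.trans hm)

/-- Almost all cubic polynomials of a pencil are separable. -/
theorem zu_dbl {γ : 𝓞 M} (hγ : γ ≠ 0) :
    ZrU fun i : 𝓞 k × 𝓞 k => {x : Fin 1 × J → ℤ |
      ¬ (cub (algebraMap (𝓞 M) M γ) (cf M ![eln B x 0, i.1, i.2])).Separable} := by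
  obtain ⟨n, hn, hnγ⟩ := exists_mul hγ
  refine (zrn (M := M) B (δ := 1 / 4) (by norm_num) (by norm_num) (N := 6 * n.natAbs)
    (mul_ne_zero (by norm_num) (Int.natAbs_ne_zero.2 hn))
    (fun (i : 𝓞 k × 𝓞 k) p φ => {y : Fin 1 → ZMod p | (¬ p ∣ 6 * n.natAbs) ∧
      y 0 ∈ (Dbl (φ γ) (φ (algebraMap (𝓞 k) (𝓞 M) i.1)) (φ (algebraMap (𝓞 k) (𝓞 M) i.2)))ᶜ})
    (fun p _ i φ hp hNp => ?_)).mono ?_
  · have e1 : {y : Fin 1 → ZMod p | (¬ p ∣ 6 * n.natAbs) ∧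
        y 0 ∈ (Dbl (φ γ) (φ (algebraMap (𝓞 k) (𝓞 M) i.1)) (φ (algebraMap (𝓞 k) (𝓞 M) i.2)))ᶜ} =
        {y : Fin 1 → ZMod p |
          y 0 ∈ (Dbl (φ γ) (φ (algebraMap (𝓞 k) (𝓞 M) i.1)) (φ (algebraMap (𝓞 k) (𝓞 M) i.2)))ᶜ} := by
      ext y
      simp only [Set.mem_setOf_eq, hp, not_false_eq_true, true_and]
    rw [e1, card_fin1, pow_one]
    have h3 : ((3 : ℕ) : ZMod p) ≠ 0 := p_ne hp ((by norm_num : 3 ∣ 6).mul_right _)
    have h1 := card_dbl (hnγ p Fact.out φ fun h => hp (h.mul_left _)) (by exact_mod_cast h3)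
      (φ (algebraMap (𝓞 k) (𝓞 M) i.1)) (φ (algebraMap (𝓞 k) (𝓞 M) i.2))
    have h2 := compl1 (Dbl (φ γ) (φ (algebraMap (𝓞 k) (𝓞 M) i.1)) (φ (algebraMap (𝓞 k) (𝓞 M) i.2)))
    have h4 : 1 ≤ n.natAbs := Nat.one_le_iff_ne_zero.2 (Int.natAbs_ne_zero.2 hn)
    have h5 : p ≤ 4 * ((Dbl (φ γ) (φ (algebraMap (𝓞 k) (𝓞 M) i.1))
      (φ (algebraMap (𝓞 k) (𝓞 M) i.2)))ᶜ).ncard := by omega
    have h6 : (p : ℝ) ≤ 4 * (((Dbl (φ γ) (φ (algebraMap (𝓞 k) (𝓞 M) i.1))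
      (φ (algebraMap (𝓞 k) (𝓞 M) i.2)))ᶜ).ncard : ℕ) := by exact_mod_cast h5
    linarith
  intro i x hx p φ hp hmem
  haveI : Fact p.Prime := ⟨hp⟩
  obtain ⟨hpn, hmem⟩ := hmem
  have hφγ := hnγ p hp φ fun h => hpn (h.mul_left _)
  obtain ⟨e, f, h0, h1, h2⟩ := dbl_of hγ hx φ hφγ
  exact hmem ⟨e, f, h0, h1, h2⟩

/-- Almost all cubic polynomials of a pencil have no points of order three. -/
theorem zu_flx {γ : 𝓞 M} (hγ : γ ≠ 0) {w : 𝓞 M} (hw : w ^ 2 + w + 1 = 0) :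
    ZrU fun i : 𝓞 k × 𝓞 k => {x : Fin 1 × J → ℤ |
      ¬ NoThree (cub (algebraMap (𝓞 M) M γ) (cf M ![eln B x 0, i.1, i.2]))} := by
  obtain ⟨n, hn, hnγ⟩ := exists_mul hγ
  refine (zrn (M := M) B (δ := 1 / 4) (by norm_num) (by norm_num) (N := 6 * n.natAbs)
    (mul_ne_zero (by norm_num) (Int.natAbs_ne_zero.2 hn))
    (fun (i : 𝓞 k × 𝓞 k) p φ => {y : Fin 1 → ZMod p | (¬ p ∣ 6 * n.natAbs) ∧
      y 0 ∈ (Flx (φ γ) (φ (algebraMap (𝓞 k) (𝓞 M) i.1)) (φ (algebraMap (𝓞 k) (𝓞 M) i.2)))ᶜ})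
    (fun p _ i φ hp hNp => ?_)).mono ?_
  · have e1 : {y : Fin 1 → ZMod p | (¬ p ∣ 6 * n.natAbs) ∧
        y 0 ∈ (Flx (φ γ) (φ (algebraMap (𝓞 k) (𝓞 M) i.1)) (φ (algebraMap (𝓞 k) (𝓞 M) i.2)))ᶜ} =
        {y : Fin 1 → ZMod p |
          y 0 ∈ (Flx (φ γ) (φ (algebraMap (𝓞 k) (𝓞 M) i.1)) (φ (algebraMap (𝓞 k) (𝓞 M) i.2)))ᶜ} := by
      ext y
      simp only [Set.mem_setOf_eq, hp, not_false_eq_true, true_and]
    rw [e1, card_fin1, pow_one]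
    have h3 : ((3 : ℕ) : ZMod p) ≠ 0 := p_ne hp ((by norm_num : 3 ∣ 6).mul_right _)
    have h2 : ((2 : ℕ) : ZMod p) ≠ 0 := p_ne hp ((by norm_num : 2 ∣ 6).mul_right _)
    have hw' : (φ w) ^ 2 + φ w + 1 = 0 := by
      have := congrArg φ hw
      simpa only [map_add, map_pow, map_one, map_zero] using this
    have h1 := card_flx (hnγ p Fact.out φ fun h => hp (h.mul_left _)) (by exact_mod_cast h2)
      (by exact_mod_cast h3) hw' (φ (algebraMap (𝓞 k) (𝓞 M) i.1)) (φ (algebraMap (𝓞 k) (𝓞 M) i.2))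
    have h2 := compl1 (Flx (φ γ) (φ (algebraMap (𝓞 k) (𝓞 M) i.1)) (φ (algebraMap (𝓞 k) (𝓞 M) i.2)))
    have h4 : 1 ≤ n.natAbs := Nat.one_le_iff_ne_zero.2 (Int.natAbs_ne_zero.2 hn)
    have h5 : p ≤ 4 * ((Flx (φ γ) (φ (algebraMap (𝓞 k) (𝓞 M) i.1))
      (φ (algebraMap (𝓞 k) (𝓞 M) i.2)))ᶜ).ncard := by omega
    have h6 : (p : ℝ) ≤ 4 * (((Flx (φ γ) (φ (algebraMap (𝓞 k) (𝓞 M) i.1))
      (φ (algebraMap (𝓞 k) (𝓞 M) i.2)))ᶜ).ncard : ℕ) := by exact_mod_cast h5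
    linarith
  intro i x hx p φ hp hmem
  haveI : Fact p.Prime := ⟨hp⟩
  obtain ⟨hpn, hmem⟩ := hmem
  have hφγ := hnγ p hp φ fun h => hpn (h.mul_left _)
  have h3 : ((3 : ℕ) : ZMod p) ≠ 0 := p_ne hpn ((by norm_num : 3 ∣ 6).mul_right _)
  obtain ⟨α, β, e, h0, h1, h2⟩ := flx_of hγ hx φ hφγ (by exact_mod_cast h3)
  exact hmem ⟨α, β, e, h0, h1, h2⟩

/-- The values at a point are rarely squares. -/
theorem zu_val (γ : 𝓞 M) (θ : M) :
    ZrU fun i : 𝓞 k × 𝓞 k => {x : Fin 1 × J → ℤ |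
      IsSquare ((cub (algebraMap (𝓞 M) M γ) (cf M ![eln B x 0, i.1, i.2])).eval θ)} := by
  obtain ⟨n, θ1, -, hn, e, -⟩ := exists_den θ θ
  refine (zrn (M := M) B (δ := 1 / 4) (by norm_num) (by norm_num) (N := 6 * n.natAbs)
    (mul_ne_zero (by norm_num) (Int.natAbs_ne_zero.2 hn))
    (fun (i : 𝓞 k × 𝓞 k) p φ => {y : Fin 1 → ZMod p |
      y 0 ∈ {s : ZMod p | ¬ IsSquare ((n : ZMod p) * (φ γ * φ θ1 ^ 3) +
      ((n : ZMod p) ^ 2 * φ θ1 ^ 2 * φ (algebraMap (𝓞 k) (𝓞 M) i.2) +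
        (n : ZMod p) ^ 3 * φ θ1 * φ (algebraMap (𝓞 k) (𝓞 M) i.1)) + (n : ZMod p) ^ 4 * s)}})
    (fun p _ i φ hp hNp => ?_)).mono ?_
  · rw [card_fin1, pow_one]
    have hp2 : p ≠ 2 := by
      rintro rfl
      exact hp ((by norm_num : 2 ∣ 6).mul_right _)
    have hpn : (n : ZMod p) ≠ 0 := by
      intro h0
      rw [ZMod.intCast_zmod_eq_zero_iff_dvd] at h0
      exact hp ((Int.natCast_dvd.1 h0).mul_left _)
    have h1 := lin_nsq hp2 (pow_ne_zero 4 hpn) ((n : ZMod p) * (φ γ * φ θ1 ^ 3) +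
      ((n : ZMod p) ^ 2 * φ θ1 ^ 2 * φ (algebraMap (𝓞 k) (𝓞 M) i.2) +
        (n : ZMod p) ^ 3 * φ θ1 * φ (algebraMap (𝓞 k) (𝓞 M) i.1)))
    have h2 := (Fact.out : p.Prime).two_le
    have h5 : p ≤ 4 * {s : ZMod p | ¬ IsSquare ((n : ZMod p) * (φ γ * φ θ1 ^ 3) +
      ((n : ZMod p) ^ 2 * φ θ1 ^ 2 * φ (algebraMap (𝓞 k) (𝓞 M) i.2) +
        (n : ZMod p) ^ 3 * φ θ1 * φ (algebraMap (𝓞 k) (𝓞 M) i.1)) +
          (n : ZMod p) ^ 4 * s)}.ncard := by omega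
    have h6 : (p : ℝ) ≤ 4 * ({s : ZMod p | ¬ IsSquare ((n : ZMod p) * (φ γ * φ θ1 ^ 3) +
      ((n : ZMod p) ^ 2 * φ θ1 ^ 2 * φ (algebraMap (𝓞 k) (𝓞 M) i.2) +
        (n : ZMod p) ^ 3 * φ θ1 * φ (algebraMap (𝓞 k) (𝓞 M) i.1)) +
          (n : ZMod p) ^ 4 * s)}.ncard : ℕ) := by exact_mod_cast h5
    linarith
  · intro i x hx p φ hp hmem
    haveI : Fact p.Prime := ⟨hp⟩
    apply hmem
    obtain ⟨w, hw⟩ := hx
    have hv := val_of (γ := γ) (A := fun j => algebraMap (𝓞 k) (𝓞 M)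
      ((![eln B x 0, i.1, i.2] : Fin 3 → 𝓞 k) j)) e
    obtain ⟨G, hG⟩ : ∃ G : 𝓞 M, G = (n : 𝓞 M) * (γ * θ1 ^ 3) + ((n : 𝓞 M) ^ 2 * θ1 ^ 2 *
      (algebraMap (𝓞 k) (𝓞 M) i.2) + (n : 𝓞 M) ^ 3 * θ1 * (algebraMap (𝓞 k) (𝓞 M) i.1) +
      (n : 𝓞 M) ^ 4 * (algebraMap (𝓞 k) (𝓞 M) (eln B x 0))) := ⟨_, rfl⟩
    have hGw : algebraMap (𝓞 M) M G = ((n : M) ^ 2 * w) ^ 2 := by
      rw [hG]
      refine hv.trans ?_
      have e2 : (cub (algebraMap (𝓞 M) M γ) fun j => algebraMap (𝓞 M) M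
          (algebraMap (𝓞 k) (𝓞 M) ((![eln B x 0, i.1, i.2] : Fin 3 → 𝓞 k) j))) =
          cub (algebraMap (𝓞 M) M γ) (cf M ![eln B x 0, i.1, i.2]) := rfl
      rw [e2, hw]
      ring
    obtain ⟨w0, hw0⟩ : ∃ w0 : 𝓞 M, algebraMap (𝓞 M) M w0 = (n : M) ^ 2 * w := by
      apply IsIntegrallyClosed.exists_algebraMap_eq_of_isIntegral_pow (n := 2) (by norm_num)
      rw [← hGw]
      exact isIntegral_algebraMap
    have h2 : G = w0 * w0 := by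
      apply IsFractionRing.injective (𝓞 M) M
      rw [hGw, map_mul, hw0, pow_two]
    refine ⟨φ w0, ?_⟩
    rw [← map_mul, ← h2, hG]
    simp only [map_add, map_mul, map_pow, map_intCast]
    ring

end zu

section za

variable {k M : Type} [Field k] [NumberField k] [Field M] [NumberField M] [Algebra k M]
  {J : Type} [Fintype J] (B : Module.Basis J ℤ (𝓞 k))

/-- Almost all monic cubic polynomials are separable. -/
theorem za_dbl :
    ZrU fun i : 𝓞 k => {x : Fin 2 × J → ℤ |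
      ¬ (cub 1 (cf M ![eln B x 0, eln B x 1, i])).Separable} := by
  refine (zrn (M := M) B (δ := 1 / 4) (by norm_num) (by norm_num) (N := 1)
    one_ne_zero
    (fun (i : 𝓞 k) p φ => {y : Fin 2 → ZMod p |
      (y 0, y 1) ∈ (Dbl2 (φ (algebraMap (𝓞 k) (𝓞 M) i)))ᶜ})
    (fun p _ i φ hp hNp => ?_)).mono ?_
  · rw [card_fin2]
    have h1 := card_dbl2 (φ (algebraMap (𝓞 k) (𝓞 M) i))
    have h2 := compl2 (Dbl2 (φ (algebraMap (𝓞 k) (𝓞 M) i)))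
    have h3 := (Fact.out : p.Prime).two_le
    have h4 : 2 * p ≤ p ^ 2 := by
      rw [pow_two]
      exact Nat.mul_le_mul_right p h3
    have h5 : p ^ 2 ≤ 4 * ((Dbl2 (φ (algebraMap (𝓞 k) (𝓞 M) i)))ᶜ).ncard := by omega
    have h6 : (p : ℝ) ^ 2 ≤ 4 * (((Dbl2 (φ (algebraMap (𝓞 k) (𝓞 M) i)))ᶜ).ncard : ℕ) := by
      exact_mod_cast h5
    linarith
  intro i x hx p φ hp hmem
  haveI : Fact p.Prime := ⟨hp⟩
  have hx' : ¬ (cub (algebraMap (𝓞 M) M 1) (cf M ![eln B x 0, eln B x 1, i])).Separable := by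
    rw [map_one]
    exact hx
  obtain ⟨e, f, h0, h1, h2⟩ := dbl_of one_ne_zero hx' φ (by rw [map_one]; exact one_ne_zero)
  rw [map_one, one_mul] at h0 h1 h2
  exact hmem ⟨e, f, h0, h1, h2⟩

/-- For almost all monic cubic polynomials the third division polynomial has no root. -/
theorem za_rt {w : 𝓞 M} (hw : w ^ 2 + w + 1 = 0) :
    ZrU fun i : 𝓞 k => {x : Fin 2 × J → ℤ | ∃ e : M,
      (cf M ![eln B x 0, eln B x 1, i] 1 - 3 * e ^ 2) ^ 2 =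
        4 * (cf M ![eln B x 0, eln B x 1, i] 2 + 3 * e) *
          (cf M ![eln B x 0, eln B x 1, i] 0 + e ^ 3)} := by
  refine (zrn (M := M) B (δ := 1 / 24) (by norm_num) (by norm_num) (N := 240)
    (by norm_num)
    (fun (i : 𝓞 k) p φ => {y : Fin 2 → ZMod p | (¬ p ∣ 240) ∧
      (y 0, y 1) ∈ (Rt (φ (algebraMap (𝓞 k) (𝓞 M) i)))ᶜ})
    (fun p _ i φ hp hNp => ?_)).mono ?_
  · have e1 : {y : Fin 2 → ZMod p | (¬ p ∣ 240) ∧
      (y 0, y 1) ∈ (Rt (φ (algebraMap (𝓞 k) (𝓞 M) i)))ᶜ} = {y : Fin 2 → ZMod p |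
      (y 0, y 1) ∈ (Rt (φ (algebraMap (𝓞 k) (𝓞 M) i)))ᶜ} := by
      ext y
      simp only [Set.mem_setOf_eq, hp, not_false_eq_true, true_and]
    rw [e1, card_fin2]
    have h3 : ((3 : ℕ) : ZMod p) ≠ 0 := p_ne hp (by norm_num : 3 ∣ 240)
    have h2 : ((2 : ℕ) : ZMod p) ≠ 0 := p_ne hp (by norm_num : 2 ∣ 240)
    have hw' : (φ w) ^ 2 + φ w + 1 = 0 := by
      have := congrArg φ hw
      simpa only [map_add, map_pow, map_one, map_zero] using this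
    have h5 := rt_card (by exact_mod_cast h2) (by exact_mod_cast h3) hw' (by omega)
      (φ (algebraMap (𝓞 k) (𝓞 M) i))
    have h6 : (p : ℝ) ^ 2 ≤ 24 * (((Rt (φ (algebraMap (𝓞 k) (𝓞 M) i)))ᶜ).ncard : ℕ) := by
      exact_mod_cast h5
    linarith
  intro i x hx p φ hp hmem
  haveI : Fact p.Prime := ⟨hp⟩
  obtain ⟨hpn, hmem⟩ := hmem
  obtain ⟨e, he⟩ := hx
  have h3 : ((3 : ℕ) : ZMod p) ≠ 0 := p_ne hpn (by norm_num : 3 ∣ 240)
  exact hmem (rt_of (A := fun j => algebraMap (𝓞 k) (𝓞 M)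
    ((![eln B x 0, eln B x 1, i] : Fin 3 → 𝓞 k) j)) he φ (by exact_mod_cast h3))

/-- The products of the values at two points are rarely squares. -/
theorem za_val {θ θ' : M} (hθ : θ ≠ θ') :
    ZrU fun i : 𝓞 k => {x : Fin 2 × J → ℤ |
      IsSquare ((cub 1 (cf M ![eln B x 0, eln B x 1, i])).eval θ *
        (cub 1 (cf M ![eln B x 0, eln B x 1, i])).eval θ')} := by
  obtain ⟨n, θ1, θ2, hn, e, e'⟩ := exists_den θ θ'
  have hnM : (n : M) ≠ 0 := by exact_mod_cast hn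
  have h12 : θ1 - θ2 ≠ 0 := by
    intro h0
    apply hθ
    have h1 := congrArg (algebraMap (𝓞 M) M) h0
    rw [map_sub, e, e', map_zero, ← mul_sub] at h1
    exact sub_eq_zero.1 ((mul_eq_zero.1 h1).resolve_left hnM)
  obtain ⟨m, hm, hmγ⟩ := exists_mul h12
  refine (zrn (M := M) B (δ := 1 / 16) (by norm_num) (by norm_num)
    (N := 6 * (n.natAbs * m.natAbs))
    (mul_ne_zero (by norm_num) (mul_ne_zero (Int.natAbs_ne_zero.2 hn) (Int.natAbs_ne_zero.2 hm)))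
    (fun (i : 𝓞 k) p φ => {y : Fin 2 → ZMod p |
      (y 0, y 1) ∈ {s : ZMod p × ZMod p | ¬ IsSquare ((((n : ZMod p) * φ θ1 ^ 3 +
      (n : ZMod p) ^ 2 * φ θ1 ^ 2 * φ (algebraMap (𝓞 k) (𝓞 M) i)) +
        ((n : ZMod p) ^ 3 * φ θ1) * s.2 + (n : ZMod p) ^ 4 * s.1) *
        (((n : ZMod p) * φ θ2 ^ 3 +
      (n : ZMod p) ^ 2 * φ θ2 ^ 2 * φ (algebraMap (𝓞 k) (𝓞 M) i)) +
        ((n : ZMod p) ^ 3 * φ θ2) * s.2 + (n : ZMod p) ^ 4 * s.1))}})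
    (fun p _ i φ hp hNp => ?_)).mono ?_
  · rw [card_fin2]
    have h2 : ((2 : ℕ) : ZMod p) ≠ 0 := p_ne hp ((by norm_num : 2 ∣ 6).mul_right _)
    have hpn : (n : ZMod p) ≠ 0 := by
      intro h0
      rw [ZMod.intCast_zmod_eq_zero_iff_dvd] at h0
      exact hp (((Int.natCast_dvd.1 h0).mul_right _).mul_left _)
    have hφ := hmγ p Fact.out φ fun h => hp ((h.mul_left _).mul_left _)
    have h1 := prod_nsq (by exact_mod_cast h2) (pow_ne_zero 4 hpn)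
      (b := (n : ZMod p) ^ 3 * φ θ1) (b' := (n : ZMod p) ^ 3 * φ θ2) (by
        intro h0
        apply hφ
        rw [map_sub]
        have h4 : (n : ZMod p) ^ 3 * (φ θ1 - φ θ2) = 0 := by linear_combination h0
        exact (mul_eq_zero.1 h4).resolve_left (pow_ne_zero 3 hpn))
      ((n : ZMod p) * φ θ1 ^ 3 + (n : ZMod p) ^ 2 * φ θ1 ^ 2 * φ (algebraMap (𝓞 k) (𝓞 M) i))
      ((n : ZMod p) * φ θ2 ^ 3 + (n : ZMod p) ^ 2 * φ θ2 ^ 2 * φ (algebraMap (𝓞 k) (𝓞 M) i))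
    obtain ⟨c0, hc0⟩ : ∃ c0 : ℕ, c0 = {y : ZMod p × ZMod p | ¬ IsSquare ((((n : ZMod p) * φ θ1 ^ 3 +
      (n : ZMod p) ^ 2 * φ θ1 ^ 2 * φ (algebraMap (𝓞 k) (𝓞 M) i)) +
        ((n : ZMod p) ^ 3 * φ θ1) * y.2 + (n : ZMod p) ^ 4 * y.1) *
        (((n : ZMod p) * φ θ2 ^ 3 +
      (n : ZMod p) ^ 2 * φ θ2 ^ 2 * φ (algebraMap (𝓞 k) (𝓞 M) i)) +
        ((n : ZMod p) ^ 3 * φ θ2) * y.2 + (n : ZMod p) ^ 4 * y.1))}.ncard := ⟨_, rfl⟩
    rw [← hc0] at h1 ⊢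
    have h6 : (p : ℝ) ^ 2 ≤ 16 * (c0 : ℕ) := by exact_mod_cast h1
    linarith
  · intro i x hx p φ hp hmem
    haveI : Fact p.Prime := ⟨hp⟩
    apply hmem
    obtain ⟨w, hw⟩ := hx
    have hv := val_of (γ := (1 : 𝓞 M)) (A := fun j => algebraMap (𝓞 k) (𝓞 M)
      ((![eln B x 0, eln B x 1, i] : Fin 3 → 𝓞 k) j)) e
    have hv' := val_of (γ := (1 : 𝓞 M)) (A := fun j => algebraMap (𝓞 k) (𝓞 M)
      ((![eln B x 0, eln B x 1, i] : Fin 3 → 𝓞 k) j)) e'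
    have e2 : (cub (algebraMap (𝓞 M) M 1) fun j => algebraMap (𝓞 M) M
          (algebraMap (𝓞 k) (𝓞 M) ((![eln B x 0, eln B x 1, i] : Fin 3 → 𝓞 k) j))) =
          cub 1 (cf M ![eln B x 0, eln B x 1, i]) := by
      rw [map_one]
      rfl
    rw [e2] at hv hv'
    obtain ⟨G, hG⟩ : ∃ G : 𝓞 M, G = (n : 𝓞 M) * (1 * θ1 ^ 3) + ((n : 𝓞 M) ^ 2 * θ1 ^ 2 *
      (algebraMap (𝓞 k) (𝓞 M) i) + (n : 𝓞 M) ^ 3 * θ1 * (algebraMap (𝓞 k) (𝓞 M) (eln B x 1)) +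
      (n : 𝓞 M) ^ 4 * (algebraMap (𝓞 k) (𝓞 M) (eln B x 0))) := ⟨_, rfl⟩
    obtain ⟨G', hG'⟩ : ∃ G' : 𝓞 M, G' = (n : 𝓞 M) * (1 * θ2 ^ 3) + ((n : 𝓞 M) ^ 2 * θ2 ^ 2 *
      (algebraMap (𝓞 k) (𝓞 M) i) + (n : 𝓞 M) ^ 3 * θ2 * (algebraMap (𝓞 k) (𝓞 M) (eln B x 1)) +
      (n : 𝓞 M) ^ 4 * (algebraMap (𝓞 k) (𝓞 M) (eln B x 0))) := ⟨_, rfl⟩
    have hv1 : algebraMap (𝓞 M) M G = (n : M) ^ 4 *
        (cub 1 (cf M ![eln B x 0, eln B x 1, i])).eval θ := by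
      rw [hG]
      exact hv
    have hv2 : algebraMap (𝓞 M) M G' = (n : M) ^ 4 *
        (cub 1 (cf M ![eln B x 0, eln B x 1, i])).eval θ' := by
      rw [hG']
      exact hv'
    have hGw : algebraMap (𝓞 M) M (G * G') = ((n : M) ^ 4 * w) ^ 2 := by
      rw [map_mul, hv1, hv2]
      linear_combination (n : M) ^ 8 * hw
    obtain ⟨w0, hw0⟩ : ∃ w0 : 𝓞 M, algebraMap (𝓞 M) M w0 = (n : M) ^ 4 * w := by
      apply IsIntegrallyClosed.exists_algebraMap_eq_of_isIntegral_pow (n := 2) (by norm_num)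
      rw [← hGw]
      exact isIntegral_algebraMap
    have h2 : G * G' = w0 * w0 := by
      apply IsFractionRing.injective (𝓞 M) M
      rw [hGw, map_mul, hw0, pow_two]
    refine ⟨φ w0, ?_⟩
    rw [← map_mul, ← h2, map_mul, hG, hG']
    simp only [map_add, map_mul, map_pow, map_intCast, map_one]
    ring

end za

end Pool.Agent.Helper23K9.Q6
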